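import Pool.Agent.Helper88.LC.Four

set_option autoImplicit false

open Finset

namespace Pool.Agent.Helper88.LC

noncomputable section

open Pool.Agent.E8helper88 (cl)
open Pool.Agent.Helper112

theorem TT_neg (N k : ℕ) [NeZero k] (f : ℕ → ℝ) (a : ZMod k) : ‖TT N k f (-a)‖ = ‖TT N k f a‖ := by
  have h : TT N k f (-a) = (starRingEnd ℂ) (TT N k f a) := by
    unfold TT
    rw [map_sum]
    refine sum_congr rfl fun n _ => ?_
    rw [RingHom.map_mul, Complex.conj_ofReal, ← AddChar.map_neg_eq_conj, neg_mul]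
  rw [h, RCLike.norm_conj]

theorem gz_inv (N k : ℕ) [NeZero k] (f : ℕ → ℝ) (a : ZMod k) :
    ∑ j : ZMod k, TT N k f (-j) * ZMod.stdAddChar (a * j) = k * gz N k f a := by
  simp_rw [TT_gz, sum_mul]
  rw [sum_comm]
  have h1 : ∀ b : ZMod k, ∑ j : ZMod k, gz N k f b * ZMod.stdAddChar (-j * b) *
      (ZMod.stdAddChar (a * j) : ℂ) = if a = b then (k : ℂ) * gz N k f b else 0 := by
    intro b
    have h2 : ∀ j : ZMod k, gz N k f b * ZMod.stdAddChar (-j * b) *
        (ZMod.stdAddChar (a * j) : ℂ) = gz N k f b * ZMod.stdAddChar (j * (a - b)) := by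
      intro j
      rw [mul_assoc, ← AddChar.map_add_eq_mul]
      congr 2
      ring
    simp_rw [h2]
    rw [← mul_sum, AddChar.sum_mulShift (a - b) (ZMod.isPrimitive_stdAddChar k)]
    simp only [sub_eq_zero, ZMod.card]
    split_ifs
    · ring
    · simp
  simp_rw [h1]
  rw [sum_ite_eq, if_pos (mem_univ _)]

open Classical in
theorem VV_le_UU (N k D : ℕ) (hk : 0 < k) (f : ℕ → ℝ) : VV N k D f ≤ UU N k D f := by
  have : NeZero k := ⟨hk.ne'⟩
  have hk0 : (0 : ℝ) < k := by exact_mod_cast hk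
  have hkC : (k : ℂ) ≠ 0 := by exact_mod_cast hk.ne'
  have hφ : (0 : ℝ) < Nat.totient k := by exact_mod_cast Nat.totient_pos.2 hk
  set Φ : ZMod k → ℂ := fun j =>
    if D ≤ k / Nat.gcd j.val k then (1 / (k : ℂ)) * TT N k f (-j) else 0 with hΦ
  set h : ZMod k → ℂ := fun a => ∑ j : ZMod k, Φ j * ZMod.stdAddChar (a * j) with hh
  have hχ : ∀ χ : DirichletCharacter ℂ k, D ≤ χ.conductor →
      tw N k f χ = ∑ a : ZMod k, χ a * h a := by
    intro χ hD
    rw [tw_eq]
    have e1 : ∀ a : ZMod k, χ a * gz N k f a = χ a * h a + ∑ j : ZMod k,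
        (if D ≤ k / Nat.gcd j.val k then 0 else (1 / (k : ℂ)) * TT N k f (-j) *
          (χ a * ZMod.stdAddChar (j * a))) := by
      intro a
      have e2 : gz N k f a = (1 / (k : ℂ)) * ∑ j : ZMod k, TT N k f (-j) *
          ZMod.stdAddChar (a * j) := by
        rw [gz_inv]
        field_simp
      rw [e2, hh]
      simp only
      rw [mul_sum, mul_sum, mul_sum, ← sum_add_distrib]
      refine sum_congr rfl fun j _ => ?_
      rw [hΦ]
      simp only
      rw [mul_comm j a]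
      split_ifs <;> ring
    simp_rw [e1]
    rw [sum_add_distrib, sum_comm (f := fun a j => if D ≤ k / Nat.gcd j.val k then (0 : ℂ) else
      (1 / (k : ℂ)) * TT N k f (-j) * (χ a * ZMod.stdAddChar (j * a)))]
    have e3 : ∀ j : ZMod k, ∑ a : ZMod k, (if D ≤ k / Nat.gcd j.val k then (0 : ℂ) else
        (1 / (k : ℂ)) * TT N k f (-j) * (χ a * ZMod.stdAddChar (j * a))) = 0 := by
      intro j
      split_ifs with hj
      · simp
      · rw [← mul_sum, vanish k χ j (by omega), mul_zero]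
    simp_rw [e3]
    simp
  have h1 : ∑ χ ∈ (univ : Finset (DirichletCharacter ℂ k)).filter (fun χ => D ≤ χ.conductor),
      ‖tw N k f χ‖ ^ 2 ≤ Nat.totient k * ∑ a : (ZMod k)ˣ, ‖h a‖ ^ 2 := by
    rw [← sum_all']
    calc _ = ∑ χ ∈ (univ : Finset (DirichletCharacter ℂ k)).filter (fun χ => D ≤ χ.conductor),
          ‖∑ a : ZMod k, χ a * h a‖ ^ 2 := by
          refine sum_congr rfl fun χ hc => ?_
          rw [hχ χ (mem_filter.1 hc).2]
      _ ≤ _ := sum_le_sum_of_subset_of_nonneg (filter_subset _ _) fun _ _ _ => by positivity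
  have h2 : ∑ a : (ZMod k)ˣ, ‖h a‖ ^ 2 ≤ ∑ a : ZMod k, ‖h a‖ ^ 2 := by
    rw [sum_units k (fun a => ‖h a‖ ^ 2), sum_zmod k (fun a => ‖h a‖ ^ 2)]
    exact sum_le_sum_of_subset_of_nonneg (filter_subset _ _) fun _ _ _ => by positivity
  have h3 : ∑ a : ZMod k, ‖h a‖ ^ 2 = k * ∑ a : ZMod k, ‖Φ a‖ ^ 2 := MLS.parseval k Φ
  have h4 : ∑ a : ZMod k, ‖Φ a‖ ^ 2 = (1 / (k : ℝ)) * UU N k D f := by
    rw [sum_zmod k (fun a => ‖Φ a‖ ^ 2)]
    unfold UU
    rw [sum_filter, mul_sum, mul_sum]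
    refine sum_congr rfl fun j hj => ?_
    rw [hΦ]
    simp only
    rw [ZMod.val_natCast_of_lt (mem_range.1 hj)]
    split_ifs with hD
    · rw [norm_mul, TT_neg, TT_ft, norm_div, norm_one, Complex.norm_natCast, mul_pow]
      ring
    · simp
  unfold VV
  rw [one_div, inv_mul_le_iff₀ hφ]
  calc _ ≤ Nat.totient k * ∑ a : (ZMod k)ˣ, ‖h a‖ ^ 2 := h1
    _ ≤ Nat.totient k * ∑ a : ZMod k, ‖h a‖ ^ 2 := by gcongr
    _ = Nat.totient k * UU N k D f := by
        rw [h3, h4]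
        field_simp

end

end Pool.Agent.Helper88.LC
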