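import Pool.Agent.Helper88.LC.Defs

set_option autoImplicit false

open Finset

namespace Pool.Agent.Helper88.LC

open Classical in
/-- CROSS: the characters of conductor `< D` contribute little to the inner product of `Λ`
with a sequence `F` whose exponential sum is uniformly small. -/
def S_CROSS : Prop :=
  ∀ (N K D : ℕ), 1 ≤ N → 1 ≤ K → 1 ≤ D → ∀ (F : ℕ → ℝ) (B T : ℝ),
    (∀ α : ℝ, ‖ft N F α‖ ≤ B) → (∀ k ∈ Ioc K (2 * K), (k.divisors.card : ℝ) ≤ T) →
    ∑ k ∈ Ioc K (2 * K), (1 / (Nat.totient k : ℝ)) *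
      ∑ χ ∈ (univ : Finset (DirichletCharacter ℂ k)).filter (fun χ => χ.conductor < D),
        ‖tw N k (⇑ArithmeticFunction.vonMangoldt) χ‖ * ‖tw N k F χ‖ ≤
    3 * T ^ 2 * B * (Real.sqrt ((1 + Real.log D) * (6 * (N + (D : ℝ) ^ 2) *
      ∑ n ∈ Ioc 0 N, ArithmeticFunction.vonMangoldt n ^ 2)) + D * T * Real.log N)

end Pool.Agent.Helper88.LC
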