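import Pool.Agent.Helper88.LC.Low
import Pool.Agent.Helper88.LC.StmCross

set_option autoImplicit false

open Finset

namespace Pool.Agent.Helper88.LC

noncomputable section

open Pool.Agent.E8helper88 (cl mu)
open Pool.Agent.Helper112

/-- the induced character (junk value `1` if `q ∤ k`) -/
def lift (k q : ℕ) (χ₀ : DirichletCharacter ℂ q) : DirichletCharacter ℂ k :=
  open Classical in if h : q ∣ k then DirichletCharacter.changeLevel h χ₀ else 1

theorem tw_lift (N k q : ℕ) [NeZero k] (h : q ∣ k) (f : ℕ → ℝ) (χ₀ : DirichletCharacter ℂ q) :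
    tw N k f (lift k q χ₀) =
      ∑ n ∈ (Ioc 0 N).filter (fun n => Nat.Coprime n k), (f n : ℂ) * χ₀ (n : ZMod q) := by
  unfold tw lift
  rw [dif_pos h, sum_filter]
  refine sum_congr rfl fun n _ => ?_
  split_ifs with hn
  · congr 1
    have h1 : IsCoprime (n : ℤ) (k : ℤ) := Nat.isCoprime_iff_coprime.2 hn
    have h2 := DirichletCharacter.changeLevel_eq_cast_of_dvd' χ₀ h h1
    simpa using h2
  · have h3 : ¬ IsUnit (n : ZMod k) := by
      rw [ZMod.isUnit_iff_coprime]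
      exact hn
    rw [MulChar.map_nonunit _ h3, mul_zero]

theorem norm_char_le (q : ℕ) [NeZero q] (χ : DirichletCharacter ℂ q) (a : ZMod q) : ‖χ a‖ ≤ 1 :=
  DirichletCharacter.norm_le_one χ a

theorem tw_lift_le (N k q : ℕ) [NeZero k] [NeZero q] (h : q ∣ k) (f : ℕ → ℝ) (hf : ∀ n, 0 ≤ f n)
    (χ₀ : DirichletCharacter ℂ q) :
    ‖tw N k f (lift k q χ₀)‖ ≤ ‖tw N q f χ₀‖ +
      ∑ n ∈ (Ioc 0 N).filter (fun n => ¬ Nat.Coprime n k), f n := by
  have e : tw N q f χ₀ = tw N k f (lift k q χ₀) +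
      ∑ n ∈ (Ioc 0 N).filter (fun n => ¬ Nat.Coprime n k), (f n : ℂ) * χ₀ (n : ZMod q) := by
    rw [tw_lift N k q h]
    unfold tw
    exact (sum_filter_add_sum_filter_not _ _ _).symm
  have e2 : tw N k f (lift k q χ₀) = tw N q f χ₀ -
      ∑ n ∈ (Ioc 0 N).filter (fun n => ¬ Nat.Coprime n k), (f n : ℂ) * χ₀ (n : ZMod q) := by
    rw [e]; ring
  rw [e2]
  refine (norm_sub_le _ _).trans ?_
  gcongr
  refine (norm_sum_le _ _).trans (sum_le_sum fun n _ => ?_)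
  rw [norm_mul, Complex.norm_real, Real.norm_eq_abs, abs_of_nonneg (hf n)]
  have := norm_char_le q χ₀ n
  nlinarith [hf n, norm_nonneg (χ₀ (n : ZMod q))]

/-- restriction to the multiples of `d` -/
def Fd (d : ℕ) (f : ℕ → ℝ) (n : ℕ) : ℝ := if d ∣ n then f n else 0

theorem ft_Fd (N d : ℕ) (hd : 0 < d) (F : ℕ → ℝ) (B : ℝ) (hB : ∀ α : ℝ, ‖ft N F α‖ ≤ B) (α : ℝ) :
    ‖ft N (Fd d F) α‖ ≤ B := by
  have hd0 : (0 : ℝ) < d := by exact_mod_cast hd
  have e : (d : ℂ) * ft N (Fd d F) α = ∑ b ∈ range d, ft N F (α + (b : ℝ) / d) := by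
    unfold ft
    rw [sum_comm, mul_sum]
    refine sum_congr rfl fun n _ => ?_
    have h1 : ∀ b ∈ range d, (F n : ℂ) * Pool.Agent.E8helper88.ee (n * (α + (b : ℝ) / d)) =
        (F n : ℂ) * Pool.Agent.E8helper88.ee (n * α) *
          Pool.Agent.E8helper88.ee ((b : ℝ) * (((n : ℤ) : ℝ) / d)) := by
      intro b _
      rw [mul_assoc, ← Pool.Agent.E8helper88.ee_add]
      congr 2
      push_cast
      ring
    rw [sum_congr rfl h1, ← mul_sum, Pool.Agent.E8helper88.orthZ d hd]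
    unfold Fd
    by_cases h : d ∣ n
    · rw [if_pos h, if_pos (by exact_mod_cast h)]
      ring
    · rw [if_neg h, if_neg (by exact_mod_cast h)]
      simp
  have h2 : ‖(d : ℂ) * ft N (Fd d F) α‖ ≤ d * B := by
    rw [e]
    refine (norm_sum_le _ _).trans ((sum_le_sum fun b _ => hB _).trans ?_)
    rw [sum_const, card_range, nsmul_eq_mul]
  rw [norm_mul, Complex.norm_natCast] at h2
  exact le_of_mul_le_mul_left h2 hd0

theorem all_bound (N q : ℕ) [NeZero q] (F : ℕ → ℝ) (B : ℝ) (hB : ∀ α : ℝ, ‖ft N F α‖ ≤ B) :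
    ∑ χ : DirichletCharacter ℂ q, ‖tw N q F χ‖ ^ 2 ≤ Nat.totient q * B ^ 2 := by
  have hq : (0 : ℝ) < q := by exact_mod_cast NeZero.pos q
  rw [parseval_chi]
  apply mul_le_mul_of_nonneg_left _ (Nat.cast_nonneg _)
  have h1 : ∑ A ∈ (range q).filter (fun A => Nat.Coprime A q), cl q N F A ^ 2 ≤
      ∑ A ∈ range q, cl q N F A ^ 2 :=
    sum_le_sum_of_subset_of_nonneg (filter_subset _ _) fun _ _ _ => sq_nonneg _
  refine h1.trans ?_
  have h2 := parseval_add N q F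
  have h3 : ∑ j ∈ range q, ‖ft N F ((j : ℝ) / q)‖ ^ 2 ≤ q * B ^ 2 := by
    calc _ ≤ ∑ j ∈ range q, B ^ 2 := sum_le_sum fun j _ =>
          pow_le_pow_left₀ (norm_nonneg _) (hB _) 2
      _ = _ := by rw [sum_const, card_range, nsmul_eq_mul]
  rw [h2] at h3
  exact le_of_mul_le_mul_left h3 hq

theorem tw_lift_mu (N k q : ℕ) [NeZero k] (h : q ∣ k) (f : ℕ → ℝ) (χ₀ : DirichletCharacter ℂ q) :
    tw N k f (lift k q χ₀) = ∑ d ∈ k.divisors, (mu d : ℂ) * tw N q (Fd d f) χ₀ := by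
  have hk : 0 < k := NeZero.pos k
  rw [tw_lift N k q h]
  unfold tw
  simp_rw [mul_sum]
  rw [sum_comm, sum_filter]
  refine sum_congr rfl fun n _ => ?_
  have h2 : ∀ d ∈ k.divisors, (mu d : ℂ) * ((Fd d f n : ℂ) * χ₀ (n : ZMod q)) =
      if d ∣ n then (mu d : ℂ) * ((f n : ℂ) * χ₀ (n : ZMod q)) else 0 := by
    intro d _
    unfold Fd
    split_ifs <;> simp
  rw [sum_congr rfl h2, ← sum_filter, ← sum_mul]
  have h3 : k.divisors.filter (fun d => d ∣ n) = (Nat.gcd n k).divisors := by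
    ext d
    simp only [mem_filter, Nat.mem_divisors]
    constructor
    · rintro ⟨⟨h1, _⟩, h2⟩
      exact ⟨Nat.dvd_gcd h2 h1, (Nat.gcd_pos_of_pos_right n hk).ne'⟩
    · rintro ⟨h1, _⟩
      exact ⟨⟨h1.trans (Nat.gcd_dvd_right _ _), hk.ne'⟩, h1.trans (Nat.gcd_dvd_left _ _)⟩
  have h4 : ∑ d ∈ (Nat.gcd n k).divisors, (mu d : ℂ) = if Nat.gcd n k = 1 then 1 else 0 := by
    have h := ArithmeticFunction.coe_mul_zeta_apply (f := ArithmeticFunction.moebius)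
      (x := Nat.gcd n k)
    rw [ArithmeticFunction.moebius_mul_coe_zeta, ArithmeticFunction.one_apply] at h
    unfold mu
    have h5 : ∑ d ∈ (Nat.gcd n k).divisors, (((ArithmeticFunction.moebius d : ℤ) : ℝ) : ℂ) =
        ((∑ d ∈ (Nat.gcd n k).divisors, ArithmeticFunction.moebius d : ℤ) : ℂ) := by
      push_cast
      rfl
    rw [h5, ← h]
    split_ifs <;> simp
  rw [h3, h4]
  unfold Nat.Coprime
  split_ifs <;> simp

theorem lift_bound (N k q : ℕ) [NeZero k] [NeZero q] (h : q ∣ k) (F : ℕ → ℝ) (B : ℝ)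
    (hB : ∀ α : ℝ, ‖ft N F α‖ ≤ B) :
    ∑ χ₀ : DirichletCharacter ℂ q, ‖tw N k F (lift k q χ₀)‖ ^ 2 ≤
      Nat.totient q * ((k.divisors.card : ℝ) * B) ^ 2 := by
  have h1 : ∀ χ₀ : DirichletCharacter ℂ q, ‖tw N k F (lift k q χ₀)‖ ^ 2 ≤
      k.divisors.card * ∑ d ∈ k.divisors, ‖tw N q (Fd d F) χ₀‖ ^ 2 := by
    intro χ₀
    rw [tw_lift_mu N k q h]
    have h2 : ‖∑ d ∈ k.divisors, (mu d : ℂ) * tw N q (Fd d F) χ₀‖ ≤
        ∑ d ∈ k.divisors, ‖tw N q (Fd d F) χ₀‖ := by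
      refine (norm_sum_le _ _).trans (sum_le_sum fun d _ => ?_)
      rw [norm_mul, Complex.norm_real, Real.norm_eq_abs]
      have := Pool.Agent.E8helper88.abs_mu_le d
      nlinarith [norm_nonneg (tw N q (Fd d F) χ₀), abs_nonneg (mu d)]
    exact (pow_le_pow_left₀ (norm_nonneg _) h2 2).trans sq_sum_le_card_mul_sum_sq
  refine (sum_le_sum fun χ₀ _ => h1 χ₀).trans ?_
  rw [← mul_sum, sum_comm]
  have h3 : ∀ d ∈ k.divisors, ∑ χ₀ : DirichletCharacter ℂ q, ‖tw N q (Fd d F) χ₀‖ ^ 2 ≤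
      Nat.totient q * B ^ 2 := by
    intro d hd
    exact all_bound N q (Fd d F) B (ft_Fd N d (Nat.pos_of_mem_divisors hd) F B hB)
  calc _ ≤ (k.divisors.card : ℝ) * ∑ d ∈ k.divisors, (Nat.totient q * B ^ 2 : ℝ) := by
        apply mul_le_mul_of_nonneg_left (sum_le_sum h3) (Nat.cast_nonneg _)
    _ = _ := by
        rw [sum_const, nsmul_eq_mul]
        ring

open Classical in
theorem prim_part (N q : ℕ) [NeZero q] (f : ℕ → ℝ) :
    ∑ χ ∈ (univ : Finset (DirichletCharacter ℂ q)).filter (fun χ => χ.IsPrimitive),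
      ‖tw N q f χ‖ ^ 2 ≤ Nat.totient q * (1 / (q : ℝ) * TQ N q (fun x => ‖ft N f x‖ ^ 2)) := by
  have hq : (0 : ℝ) < q := by exact_mod_cast NeZero.pos q
  have hφ : (0 : ℝ) < Nat.totient q := by exact_mod_cast Nat.totient_pos.2 (NeZero.pos q)
  have h := MLS.prim_bound q N (fun n => (f n : ℂ))
  rw [MLS.sum_units] at h
  have e1 : TQ N q (fun x => ‖ft N f x‖ ^ 2) =
      ∑ a ∈ (range q).filter (fun a => Nat.Coprime a q),
        ‖∑ n ∈ Icc 1 N, (fun n : ℕ => (f n : ℂ)) n * Pool.Agent.Helper112.ee (n * a / q)‖ ^ 2 := by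
    unfold TQ
    refine sum_congr rfl fun a _ => ?_
    simp only [ft_eq]
  rw [← e1] at h
  have e2 : ∀ χ : DirichletCharacter ℂ q, tw N q f χ =
      ∑ n ∈ Icc 1 N, (fun n : ℕ => (f n : ℂ)) n * χ (n : ZMod q) := by
    intro χ
    unfold tw
    rw [Icc_one_eq]
  simp_rw [e2]
  calc _ = (Nat.totient q : ℝ) / q * ((q : ℝ) / (Nat.totient q : ℝ) *
        ∑ χ ∈ (univ : Finset (DirichletCharacter ℂ q)).filter (fun χ => χ.IsPrimitive),
        ‖∑ n ∈ Icc 1 N, (fun n : ℕ => (f n : ℂ)) n * χ (n : ZMod q)‖ ^ 2) := by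
        field_simp
    _ ≤ (Nat.totient q : ℝ) / q * TQ N q (fun x => ‖ft N f x‖ ^ 2) := by gcongr
    _ = _ := by ring

end

end Pool.Agent.Helper88.LC
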