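import Pool.Agent.Helper88.LC.Cross

set_option autoImplicit false

open Finset

namespace Pool.Agent.Helper88.LC

noncomputable section

open Pool.Agent.E8helper88 (cl mu)
open Pool.Agent.Helper112

theorem lift_inj (k q : ℕ) [NeZero k] (h : q ∣ k) : Function.Injective (lift k q) := by
  intro a b hab
  unfold lift at hab
  rw [dif_pos h, dif_pos h] at hab
  exact DirichletCharacter.changeLevel_injective h hab

open Classical in
theorem low_le (k D : ℕ) [NeZero k] (t : DirichletCharacter ℂ k → ℝ) (ht : ∀ χ, 0 ≤ t χ) :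
    ∑ χ ∈ (univ : Finset (DirichletCharacter ℂ k)).filter (fun χ => χ.conductor < D), t χ ≤
      ∑ q ∈ k.divisors.filter (fun q => q < D),
        ∑ χ₀ ∈ (univ : Finset (DirichletCharacter ℂ q)).filter (fun χ => χ.IsPrimitive),
          t (lift k q χ₀) := by
  have hk : 0 < k := NeZero.pos k
  have h1 : ∀ χ ∈ (univ : Finset (DirichletCharacter ℂ k)).filter (fun χ => χ.conductor < D),
      χ.conductor ∈ k.divisors.filter (fun q => q < D) := by
    intro χ hχ
    rw [mem_filter] at hχ ⊢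
    rw [Nat.mem_divisors]
    exact ⟨⟨χ.conductor_dvd_level, hk.ne'⟩, hχ.2⟩
  rw [← sum_fiberwise_of_maps_to h1 t]
  refine sum_le_sum fun q hq => ?_
  rw [mem_filter, Nat.mem_divisors] at hq
  rw [← sum_image (f := t) (g := lift k q) (fun a _ b _ hab => lift_inj k q hq.1.1 hab)]
  refine sum_le_sum_of_subset_of_nonneg ?_ fun χ _ _ => ht χ
  intro χ hχ
  rw [mem_filter, mem_filter] at hχ
  obtain ⟨⟨_, _⟩, hc⟩ := hχ
  subst hc
  rw [mem_image]
  refine ⟨χ.primitiveCharacter, mem_filter.2 ⟨mem_univ _, χ.primitiveCharacter_isPrimitive⟩, ?_⟩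
  unfold lift
  rw [dif_pos χ.conductor_dvd_level]
  exact χ.changeLevel_primitiveCharacter

theorem card_char (q : ℕ) [NeZero q] :
    ((univ : Finset (DirichletCharacter ℂ q)).card : ℝ) = Nat.totient q := by
  have h := DirichletCharacter.card_eq_totient_of_hasEnoughRootsOfUnity ℂ q
  rw [Nat.card_eq_fintype_card] at h
  rw [card_univ]
  exact_mod_cast h

open Classical in
theorem q_part (N k q : ℕ) [NeZero k] [NeZero q] (h : q ∣ k) (hN : 1 ≤ N) (F : ℕ → ℝ) (B T : ℝ)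
    (hB : ∀ α : ℝ, ‖ft N F α‖ ≤ B) (hT : (k.divisors.card : ℝ) ≤ T) :
    ∑ χ₀ ∈ (univ : Finset (DirichletCharacter ℂ q)).filter (fun χ => χ.IsPrimitive),
      ‖tw N k (⇑ArithmeticFunction.vonMangoldt) (lift k q χ₀)‖ * ‖tw N k F (lift k q χ₀)‖ ≤
    Nat.totient q * (T * B) *
      (Real.sqrt (1 / (q : ℝ)) * Real.sqrt (TQ N q
        (fun x => ‖ft N (⇑ArithmeticFunction.vonMangoldt) x‖ ^ 2)) + T * Real.log N) := by
  set Λ : ℕ → ℝ := ⇑ArithmeticFunction.vonMangoldt with hΛ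
  set P := (univ : Finset (DirichletCharacter ℂ q)).filter (fun χ => χ.IsPrimitive) with hP
  have hB0 : 0 ≤ B := (norm_nonneg _).trans (hB 0)
  have hT0 : 0 ≤ T := (Nat.cast_nonneg _).trans hT
  have hq : (0 : ℝ) < q := by exact_mod_cast NeZero.pos q
  have hlog : 0 ≤ Real.log N := Real.log_natCast_nonneg N
  have hφ : (0 : ℝ) ≤ Nat.totient q := Nat.cast_nonneg _
  set y : DirichletCharacter ℂ q → ℝ := fun χ₀ => ‖tw N k F (lift k q χ₀)‖ with hy
  have hysum : ∑ χ₀ ∈ P, y χ₀ ^ 2 ≤ Nat.totient q * (T * B) ^ 2 := by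
    have h1 := lift_bound N k q h F B hB
    calc ∑ χ₀ ∈ P, y χ₀ ^ 2 ≤ ∑ χ₀ : DirichletCharacter ℂ q, y χ₀ ^ 2 :=
          sum_le_sum_of_subset_of_nonneg (filter_subset _ _) fun _ _ _ => sq_nonneg _
      _ ≤ Nat.totient q * ((k.divisors.card : ℝ) * B) ^ 2 := h1
      _ ≤ _ := by gcongr
  have hysq : Real.sqrt (∑ χ₀ ∈ P, y χ₀ ^ 2) ≤ Real.sqrt (Nat.totient q) * (T * B) := by
    rw [Real.sqrt_le_left (by positivity), mul_pow, Real.sq_sqrt hφ]
    exact hysum
  have hx : ∀ χ₀ ∈ P, ‖tw N k Λ (lift k q χ₀)‖ * y χ₀ ≤ ‖tw N q Λ χ₀‖ * y χ₀ +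
      (T * Real.log N) * (1 * y χ₀) := by
    intro χ₀ _
    have h1 := tw_lift_le N k q h Λ (fun n => ArithmeticFunction.vonMangoldt_nonneg) χ₀
    have h2 := Pool.Agent.E8helper88.noncop_mass k N (NeZero.pos k) hN
    have h3 : (k.divisors.card : ℝ) * Real.log N ≤ T * Real.log N := by gcongr
    have h4 : 0 ≤ y χ₀ := norm_nonneg _
    nlinarith
  have hprim := prim_part N q Λ
  have h1 : ∑ χ₀ ∈ P, ‖tw N q Λ χ₀‖ * y χ₀ ≤
      Real.sqrt (Nat.totient q * (1 / (q : ℝ) * TQ N q (fun x => ‖ft N Λ x‖ ^ 2))) *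
        (Real.sqrt (Nat.totient q) * (T * B)) := by
    refine (Real.sum_mul_le_sqrt_mul_sqrt P (fun χ₀ => ‖tw N q Λ χ₀‖) y).trans ?_
    apply mul_le_mul (Real.sqrt_le_sqrt hprim) hysq (Real.sqrt_nonneg _) (Real.sqrt_nonneg _)
  have h2 : ∑ χ₀ ∈ P, 1 * y χ₀ ≤ Real.sqrt (Nat.totient q) *
      (Real.sqrt (Nat.totient q) * (T * B)) := by
    refine (Real.sum_mul_le_sqrt_mul_sqrt P (fun _ => (1 : ℝ)) y).trans ?_
    have h3 : ∑ χ₀ ∈ P, (1 : ℝ) ^ 2 ≤ Nat.totient q := by
      rw [← card_char q]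
      simp only [one_pow, sum_const, nsmul_eq_mul, mul_one]
      exact_mod_cast card_le_card (filter_subset _ _)
    apply mul_le_mul (Real.sqrt_le_sqrt h3) hysq (Real.sqrt_nonneg _) (Real.sqrt_nonneg _)
  calc _ ≤ ∑ χ₀ ∈ P, (‖tw N q Λ χ₀‖ * y χ₀ + (T * Real.log N) * (1 * y χ₀)) := sum_le_sum hx
    _ = ∑ χ₀ ∈ P, ‖tw N q Λ χ₀‖ * y χ₀ + (T * Real.log N) * ∑ χ₀ ∈ P, 1 * y χ₀ := by
        rw [sum_add_distrib, ← mul_sum]
    _ ≤ Real.sqrt (Nat.totient q * (1 / (q : ℝ) * TQ N q (fun x => ‖ft N Λ x‖ ^ 2))) *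
          (Real.sqrt (Nat.totient q) * (T * B)) + (T * Real.log N) *
          (Real.sqrt (Nat.totient q) * (Real.sqrt (Nat.totient q) * (T * B))) := by
        gcongr
    _ = (Real.sqrt (Nat.totient q) * Real.sqrt (Nat.totient q)) * (T * B) *
        (Real.sqrt (1 / (q : ℝ)) * Real.sqrt (TQ N q (fun x => ‖ft N Λ x‖ ^ 2)) +
          T * Real.log N) := by
        rw [Real.sqrt_mul hφ, Real.sqrt_mul (by positivity)]
        ring
    _ = _ := by rw [Real.mul_self_sqrt hφ]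

theorem s_CROSS : S_CROSS := by
  classical
  intro N K D hN hK hD F B T hB hT
  set Λ : ℕ → ℝ := ⇑ArithmeticFunction.vonMangoldt with hΛ
  have hB0 : 0 ≤ B := (norm_nonneg _).trans (hB 0)
  have hK0 : (0 : ℝ) < K := by exact_mod_cast hK
  have hT0 : 0 ≤ T := (Nat.cast_nonneg _).trans (hT (K + 1) (by rw [mem_Ioc]; omega))
  have hlog : 0 ≤ Real.log N := Real.log_natCast_nonneg N
  set c : ℕ → ℝ := fun q => Real.sqrt (1 / (q : ℝ)) *
    Real.sqrt (TQ N q (fun x => ‖ft N Λ x‖ ^ 2)) + T * Real.log N with hc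
  have hc0 : ∀ q, 0 ≤ c q := fun q => by positivity
  have h1 : ∀ k ∈ Ioc K (2 * K), (1 / (Nat.totient k : ℝ)) *
      ∑ χ ∈ (univ : Finset (DirichletCharacter ℂ k)).filter (fun χ => χ.conductor < D),
        ‖tw N k Λ χ‖ * ‖tw N k F χ‖ ≤
      ∑ q ∈ Icc 1 (min D (2 * K)), if q ∣ k then (1 / (K : ℝ)) * (T ^ 2 * B * (q * c q)) else 0 := by
    intro k hk
    have hk' := mem_Ioc.1 hk
    have hk0 : 0 < k := by omega
    have : NeZero k := ⟨hk0.ne'⟩
    have hkr : (0 : ℝ) < k := by exact_mod_cast hk0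
    have hKk : (K : ℝ) ≤ k := by exact_mod_cast hk'.1.le
    have hφ : (0 : ℝ) < Nat.totient k := by exact_mod_cast Nat.totient_pos.2 hk0
    have hTk := hT k hk
    have h2 := low_le k D (fun χ => ‖tw N k Λ χ‖ * ‖tw N k F χ‖) fun χ => by positivity
    have h3 : ∑ q ∈ k.divisors.filter (fun q => q < D),
        ∑ χ₀ ∈ (univ : Finset (DirichletCharacter ℂ q)).filter (fun χ => χ.IsPrimitive),
          ‖tw N k Λ (lift k q χ₀)‖ * ‖tw N k F (lift k q χ₀)‖ ≤
        ∑ q ∈ k.divisors.filter (fun q => q < D), T * B * (q * c q) := by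
      refine sum_le_sum fun q hq => ?_
      rw [mem_filter, Nat.mem_divisors] at hq
      have hq0 : 0 < q := Nat.pos_of_dvd_of_pos hq.1.1 hk0
      have : NeZero q := ⟨hq0.ne'⟩
      refine (q_part N k q hq.1.1 hN F B T hB hTk).trans ?_
      have h4 : (Nat.totient q : ℝ) ≤ q := by exact_mod_cast Nat.totient_le q
      calc (Nat.totient q : ℝ) * (T * B) * c q ≤ q * (T * B) * c q := by
            have := hc0 q
            gcongr
        _ = _ := by ring
    have h5 : 1 / (Nat.totient k : ℝ) ≤ T / K := by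
      rw [div_le_div_iff₀ hφ hK0]
      have := Pool.Agent.E8helper88.totient_lower' k
      calc 1 * (K : ℝ) ≤ k := by linarith
        _ ≤ k.divisors.card * Nat.totient k := this
        _ ≤ T * Nat.totient k := by gcongr
    have h6 : 0 ≤ ∑ q ∈ k.divisors.filter (fun q => q < D), T * B * (q * c q) :=
      sum_nonneg fun q _ => by have := hc0 q; positivity
    calc _ ≤ (1 / (Nat.totient k : ℝ)) * ∑ q ∈ k.divisors.filter (fun q => q < D),
          T * B * (q * c q) := by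
          apply mul_le_mul_of_nonneg_left (h2.trans h3) (by positivity)
      _ ≤ (T / K) * ∑ q ∈ k.divisors.filter (fun q => q < D), T * B * (q * c q) := by gcongr
      _ = ∑ q ∈ k.divisors.filter (fun q => q < D), (1 / (K : ℝ)) * (T ^ 2 * B * (q * c q)) := by
          rw [mul_sum]
          refine sum_congr rfl fun q _ => ?_
          ring
      _ ≤ _ := by
          rw [← sum_filter]
          refine sum_le_sum_of_subset_of_nonneg ?_ fun q _ _ => by have := hc0 q; positivity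
          intro q hq
          rw [mem_filter, Nat.mem_divisors] at hq
          have a1 := Nat.pos_of_dvd_of_pos hq.1.1 hk0
          have a2 := Nat.le_of_dvd hk0 hq.1.1
          rw [mem_filter, mem_Icc]
          exact ⟨⟨a1, le_min (by omega) (by omega)⟩, hq.1.1⟩
  refine (sum_le_sum h1).trans ?_
  rw [sum_comm]
  have h7 : ∀ q ∈ Icc 1 (min D (2 * K)), ∑ k ∈ Ioc K (2 * K),
      (if q ∣ k then (1 / (K : ℝ)) * (T ^ 2 * B * (q * c q)) else 0) ≤ 3 * T ^ 2 * B * c q := by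
    intro q hq
    rw [mem_Icc] at hq
    have hq0 : (0 : ℝ) < q := by
      have : 0 < q := by omega
      exact_mod_cast this
    rw [← sum_filter, sum_const, nsmul_eq_mul, ← mul_assoc]
    have h8 := card_mult K q hK hq.1
    have := hc0 q
    calc _ ≤ 3 / (q : ℝ) * (T ^ 2 * B * (q * c q)) := by gcongr
      _ = _ := by field_simp
  refine (sum_le_sum h7).trans ?_
  rw [← mul_sum]
  apply mul_le_mul_of_nonneg_left _ (by positivity)
  calc ∑ q ∈ Icc 1 (min D (2 * K)), c q ≤ ∑ q ∈ Icc 1 D, c q := by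
        refine sum_le_sum_of_subset_of_nonneg ?_ fun q _ _ => hc0 q
        exact Icc_subset_Icc le_rfl (min_le_left _ _)
    _ = ∑ q ∈ Icc 1 D, Real.sqrt (1 / (q : ℝ)) *
          Real.sqrt (TQ N q (fun x => ‖ft N Λ x‖ ^ 2)) + D * (T * Real.log N) := by
        rw [hc, sum_add_distrib, sum_const, Nat.card_Icc, nsmul_eq_mul]
        simp
    _ ≤ _ := by
        have h9 := sqrt_sum N D Λ
        have e : (D : ℝ) * T * Real.log N = D * (T * Real.log N) := by ring
        rw [e]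
        linarith

end

end Pool.Agent.Helper88.LC
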