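import Pool.Agent.Helper88.LC.Four

set_option autoImplicit false

open Finset

namespace Pool.Agent.Helper88.LC

noncomputable section

open Pool.Agent.E8helper88 (cl)

open Classical in
theorem decomp (N k D : ℕ) (hk : 0 < k) (hD : 2 ≤ D) (f : ℕ → ℝ) (y : ℝ) :
    ∑ A ∈ (range k).filter (fun A => Nat.Coprime A k), (cl k N f A - y / Nat.totient k) ^ 2 =
      VV N k D f + (1 / (Nat.totient k : ℝ)) *
        ∑ χ ∈ (univ : Finset (DirichletCharacter ℂ k)).filter (fun χ => χ.conductor < D),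
          ‖tw N k f χ - (if χ = 1 then (y : ℂ) else 0)‖ ^ 2 := by
  have : NeZero k := ⟨hk.ne'⟩
  have hφ : (0 : ℝ) < Nat.totient k := by exact_mod_cast Nat.totient_pos.2 hk
  have hφC : (Nat.totient k : ℂ) ≠ 0 := by exact_mod_cast hφ.ne'
  set g : ZMod k → ℂ := fun a => gz N k f a - ((y / Nat.totient k : ℝ) : ℂ) with hg
  have h1 := sum_all' k g
  have h2 : ∀ χ : DirichletCharacter ℂ k, ∑ a : ZMod k, χ a * g a =
      tw N k f χ - (if χ = 1 then (y : ℂ) else 0) := by
    intro χ
    rw [hg]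
    simp only
    simp_rw [mul_sub]
    rw [sum_sub_distrib, ← tw_eq, ← sum_mul]
    congr 1
    split_ifs with h
    · rw [h, MulChar.sum_one_eq_card_units, ZMod.card_units_eq_totient]
      push_cast
      field_simp
    · rw [MulChar.sum_eq_zero_of_ne_one h, zero_mul]
  simp_rw [h2] at h1
  rw [sum_units k (fun a => ‖g a‖ ^ 2)] at h1
  have h3 : ∑ A ∈ (range k).filter (fun A => Nat.Coprime A k), ‖g (A : ZMod k)‖ ^ 2 =
      ∑ A ∈ (range k).filter (fun A => Nat.Coprime A k), (cl k N f A - y / Nat.totient k) ^ 2 := by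
    refine sum_congr rfl fun A hA => ?_
    rw [hg]
    simp only
    rw [gz_cl N k f A (mem_range.1 (mem_filter.1 hA).1), ← Complex.ofReal_sub, Complex.norm_real,
      Real.norm_eq_abs, sq_abs]
  rw [h3] at h1
  have h4 := sum_filter_add_sum_filter_not (univ : Finset (DirichletCharacter ℂ k))
    (fun χ => D ≤ χ.conductor) (fun χ => ‖tw N k f χ - (if χ = 1 then (y : ℂ) else 0)‖ ^ 2)
  rw [h1] at h4
  have h5 : ∑ χ ∈ (univ : Finset (DirichletCharacter ℂ k)).filter (fun χ => D ≤ χ.conductor),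
      ‖tw N k f χ - (if χ = 1 then (y : ℂ) else 0)‖ ^ 2 =
      ∑ χ ∈ (univ : Finset (DirichletCharacter ℂ k)).filter (fun χ => D ≤ χ.conductor),
      ‖tw N k f χ‖ ^ 2 := by
    refine sum_congr rfl fun χ hχ => ?_
    rw [mem_filter] at hχ
    have : χ ≠ 1 := by
      rintro rfl
      rw [DirichletCharacter.conductor_one] at hχ
      omega
    rw [if_neg this, sub_zero]
  rw [h5] at h4
  have h6 : (univ : Finset (DirichletCharacter ℂ k)).filter (fun χ => ¬ D ≤ χ.conductor) =
      (univ : Finset (DirichletCharacter ℂ k)).filter (fun χ => χ.conductor < D) := by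
    ext χ
    simp
  rw [h6] at h4
  have h8 : ∑ χ ∈ (univ : Finset (DirichletCharacter ℂ k)).filter (fun χ => D ≤ χ.conductor),
      ‖tw N k f χ‖ ^ 2 +
      ∑ χ ∈ (univ : Finset (DirichletCharacter ℂ k)).filter (fun χ => χ.conductor < D),
        ‖tw N k f χ - (if χ = 1 then (y : ℂ) else 0)‖ ^ 2 = Nat.totient k *
      ∑ A ∈ (range k).filter (fun A => Nat.Coprime A k), (cl k N f A - y / Nat.totient k) ^ 2 := by
    convert h4
  have h9 : ∑ A ∈ (range k).filter (fun A => Nat.Coprime A k), (cl k N f A - y / Nat.totient k) ^ 2 =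
      (1 / (Nat.totient k : ℝ)) *
      (∑ χ ∈ (univ : Finset (DirichletCharacter ℂ k)).filter (fun χ => D ≤ χ.conductor),
      ‖tw N k f χ‖ ^ 2 +
      ∑ χ ∈ (univ : Finset (DirichletCharacter ℂ k)).filter (fun χ => χ.conductor < D),
        ‖tw N k f χ - (if χ = 1 then (y : ℂ) else 0)‖ ^ 2) := by
    rw [h8, one_div, inv_mul_cancel_left₀ hφ.ne']
  unfold VV
  rw [← mul_add]
  convert h9

end

end Pool.Agent.Helper88.LC
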