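import Pool.Graph.R_pool_sql_team_seeded_b677cdb8.E8helper88.ScaleMain
import Pool.Graph.R_seed8.Helper112.MultLS

set_option autoImplicit false

open Finset

namespace Pool.Agent.Helper88.LC

noncomputable section

/-- additive transform of a real sequence -/
def ft (N : ℕ) (f : ℕ → ℝ) (α : ℝ) : ℂ :=
  ∑ n ∈ Ioc 0 N, (f n : ℂ) * Pool.Agent.E8helper88.ee (n * α)

/-- character sum of a real sequence -/
def tw (N k : ℕ) (f : ℕ → ℝ) (χ : DirichletCharacter ℂ k) : ℂ :=
  ∑ n ∈ Ioc 0 N, (f n : ℂ) * χ (n : ZMod k)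

/-- the part of the mean square over classes carried by fractions of denominator `≥ D` -/
def UU (N k D : ℕ) (f : ℕ → ℝ) : ℝ :=
  (1 / (k : ℝ)) * ∑ j ∈ (range k).filter (fun j => D ≤ k / Nat.gcd j k), ‖ft N f ((j : ℝ) / k)‖ ^ 2

open Classical in
/-- the part of the mean square over reduced classes carried by characters of conductor `≥ D` -/
def VV (N k D : ℕ) (f : ℕ → ℝ) : ℝ :=
  (1 / (Nat.totient k : ℝ)) *
    ∑ χ ∈ (univ : Finset (DirichletCharacter ℂ k)).filter (fun χ => D ≤ χ.conductor),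
      ‖tw N k f χ‖ ^ 2

end

end Pool.Agent.Helper88.LC
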