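import Pool.Agent.Helper88.LC.Quant

set_option autoImplicit false

open Finset

namespace Pool.Agent.Helper88.LC

noncomputable section

open Pool.Agent.E8helper88

theorem fin (ε : ℝ) (hε : 0 < ε) : ∃ κ : ℝ, 0 < κ ∧ ∃ N₀ : ℕ, ∀ N K D : ℕ, N₀ ≤ N →
    (N : ℝ) ^ (1 / 2 + ε) ≤ K → K ≤ N → D ^ 2 ≤ N → N ≤ D * K →
    (((Ioc K (2 * K)).filter (fun k : ℕ => VV N k D (⇑ArithmeticFunction.vonMangoldt) <
      N * (2 * Real.log k - Real.log N - ε * Real.log N))).card : ℝ) ≤ (K : ℝ) ^ (1 - κ) ∧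
    ∑ k ∈ Ioc K (2 * K), |VV N k D (⇑ArithmeticFunction.vonMangoldt) - N * Real.log k| ≤
      220 * K * N * (Real.log ((N : ℝ) / K) + ε * Real.log N) := by
  set δ := min ε 1 / 16 with hδdef
  have hm0 : 0 < min ε 1 := lt_min hε one_pos
  have hδ : 0 < δ := by positivity
  have hδ1 : δ ≤ 1 / 16 := by
    rw [hδdef]
    have := min_le_right ε 1
    linarith
  have hδε : 16 * δ ≤ ε := by
    rw [hδdef]
    have := min_le_left ε 1
    linarith
  obtain ⟨x0, h0⟩ := quant δ hδ hδ1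
  obtain ⟨x1, h1⟩ := growth 1 δ 3 hδ (by norm_num)
  refine ⟨δ / 4, by positivity, max (max x0 x1) (⌈Real.exp (3 / δ)⌉₊ + 2),
    fun N K D hN hNK hKN hDN hNDK => ?_⟩
  have hNx0 : x0 ≤ N := ((le_max_left _ _).trans (le_max_left _ _)).trans hN
  have hNx1 : x1 ≤ N := ((le_max_right _ _).trans (le_max_left _ _)).trans hN
  have hNx2 : ⌈Real.exp (3 / δ)⌉₊ + 2 ≤ N := (le_max_right _ _).trans hN
  have hN1 : 1 ≤ N := by omega
  have hN1r : (1 : ℝ) ≤ N := by exact_mod_cast hN1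
  have hNpos : (0 : ℝ) < N := by linarith
  have hlog3 : 3 ≤ δ * Real.log N := by
    have a1 : Real.exp (3 / δ) ≤ N := by
      refine (Nat.le_ceil _).trans ?_
      have : ⌈Real.exp (3 / δ)⌉₊ ≤ N := by omega
      exact_mod_cast this
    have a2 := (Real.le_log_iff_exp_le hNpos).2 a1
    rw [div_le_iff₀ hδ] at a2
    linarith
  have hKpos : (0 : ℝ) < K := lt_of_lt_of_le (Real.rpow_pos_of_pos hNpos _) hNK
  have hK1 : 1 ≤ K := by exact_mod_cast hKpos
  have hK1r : (1 : ℝ) ≤ K := by exact_mod_cast hK1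
  have hKN' : (K : ℝ) ≤ N := by exact_mod_cast hKN
  have hD1 : 1 ≤ D := by
    rcases Nat.eq_zero_or_pos D with h | h
    · subst h
      simp at hNDK
      omega
    · exact h
  have hl : 0 ≤ Real.log N := Real.log_nonneg hN1r
  have mono : ∀ s t : ℝ, s ≤ t → (N : ℝ) ^ s ≤ (N : ℝ) ^ t := fun s t h =>
    Real.rpow_le_rpow_of_exponent_le hN1r h
  have hcond : (N : ℝ) ^ (1 + 16 * δ) ≤ 16 * (K : ℝ) ^ 2 := by
    have b1 : ((N : ℝ) ^ (1 / 2 + ε)) ^ 2 ≤ (K : ℝ) ^ 2 :=
      pow_le_pow_left₀ (Real.rpow_nonneg hNpos.le _) hNK 2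
    have b2 : ((N : ℝ) ^ (1 / 2 + ε)) ^ 2 = (N : ℝ) ^ (1 + 2 * ε) := by
      rw [sq, ← Real.rpow_add hNpos]; congr 1; ring
    rw [b2] at b1
    have b3 := mono (1 + 16 * δ) (1 + 2 * ε) (by linarith)
    have b4 : 0 ≤ (K : ℝ) ^ 2 := sq_nonneg _
    linarith
  obtain ⟨Z, hZ0, hZs, hlow, hup⟩ := h0 N K D hNx0 hK1 hKN hcond hD1 hDN hNDK
  have hlogKN : Real.log K ≤ Real.log N := Real.log_le_log hKpos hKN'
  have hsmall : (N : ℝ) ^ (1 - δ / 2) ≤ N := by
    calc (N : ℝ) ^ (1 - δ / 2) ≤ (N : ℝ) ^ (1 : ℝ) := mono _ _ (by linarith)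
      _ = N := Real.rpow_one _
  constructor
  · -- the exceptional set
    set S := (Ioc K (2 * K)).filter (fun k : ℕ => VV N k D (⇑ArithmeticFunction.vonMangoldt) <
      N * (2 * Real.log k - Real.log N - ε * Real.log N)) with hS
    have hSZ : ∀ k ∈ S, (N : ℝ) ^ (1 - δ / 4) ≤ Z k := by
      intro k hk
      rw [hS, mem_filter] at hk
      have c1 := hlow k hk.1
      have c2 : N * (9 * δ * Real.log N) ≤ Z k := by
        have c3 : N * (2 * Real.log k - Real.log N - ε * Real.log N) ≤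
            N * (2 * Real.log k - (1 + 15 * δ) * Real.log N) := by
          apply mul_le_mul_of_nonneg_left _ hNpos.le
          nlinarith
        have c4 := hk.2
        have c5 : N * (2 * Real.log k - (1 + 6 * δ) * Real.log N) -
            N * (2 * Real.log k - (1 + 15 * δ) * Real.log N) = N * (9 * δ * Real.log N) := by ring
        linarith
      have c6 : (N : ℝ) ^ (1 - δ / 4) ≤ N := by
        calc (N : ℝ) ^ (1 - δ / 4) ≤ (N : ℝ) ^ (1 : ℝ) := mono _ _ (by linarith)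
          _ = N := Real.rpow_one _
      have c7 : (N : ℝ) * 1 ≤ N * (9 * δ * Real.log N) :=
        mul_le_mul_of_nonneg_left (by linarith) hNpos.le
      linarith
    have d1 : (S.card : ℝ) * (N : ℝ) ^ (1 - δ / 4) ≤ K * (N : ℝ) ^ (1 - δ / 2) := by
      calc (S.card : ℝ) * (N : ℝ) ^ (1 - δ / 4) = ∑ k ∈ S, (N : ℝ) ^ (1 - δ / 4) := by
            rw [sum_const, nsmul_eq_mul]
        _ ≤ ∑ k ∈ S, Z k := sum_le_sum hSZ
        _ ≤ ∑ k ∈ Ioc K (2 * K), Z k :=
            sum_le_sum_of_subset_of_nonneg (filter_subset _ _) fun k _ _ => hZ0 k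
        _ ≤ _ := hZs
    have d2 : (N : ℝ) ^ (1 - δ / 2) = (N : ℝ) ^ (-(δ / 4)) * (N : ℝ) ^ (1 - δ / 4) := by
      rw [← Real.rpow_add hNpos]; congr 1; ring
    rw [d2, ← mul_assoc] at d1
    have d3 := le_of_mul_le_mul_right d1 (Real.rpow_pos_of_pos hNpos _)
    refine d3.trans ?_
    have d4 : (N : ℝ) ^ (-(δ / 4)) ≤ (K : ℝ) ^ (-(δ / 4)) :=
      Real.rpow_le_rpow_of_nonpos hKpos hKN' (by linarith)
    calc (K : ℝ) * (N : ℝ) ^ (-(δ / 4)) ≤ K * (K : ℝ) ^ (-(δ / 4)) := by gcongr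
      _ = (K : ℝ) ^ (1 - δ / 4) := by
          rw [sub_eq_add_neg, Real.rpow_add hKpos, Real.rpow_one]
  · -- the first moment
    rw [Real.log_div hNpos.ne' hKpos.ne']
    set Δ := Real.log N - Real.log K with hΔ
    have hΔ0 : 0 ≤ Δ := by linarith
    have e1 : ∀ k ∈ Ioc K (2 * K), |VV N k D (⇑ArithmeticFunction.vonMangoldt) - N * Real.log k| ≤
        (VV N k D (⇑ArithmeticFunction.vonMangoldt) - N * Real.log K) +
          2 * (N * (Δ + 6 * δ * Real.log N)) + 2 * Z k := by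
      intro k hk
      have f1 := hlow k hk
      have f2 := hZ0 k
      have hk' := mem_Ioc.1 hk
      have f3 : Real.log K ≤ Real.log k := by
        apply Real.log_le_log hKpos
        exact_mod_cast hk'.1.le
      have f4 : N * Real.log K ≤ N * Real.log k := mul_le_mul_of_nonneg_left f3 hNpos.le
      have f5 : N * Real.log k - N * (2 * Real.log k - (1 + 6 * δ) * Real.log N) ≤
          N * (Δ + 6 * δ * Real.log N) := by
        rw [← mul_sub]
        apply mul_le_mul_of_nonneg_left _ hNpos.le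
        rw [hΔ]
        linarith
      have f6 : 0 ≤ N * (Δ + 6 * δ * Real.log N) := by positivity
      rcases le_total 0 (VV N k D (⇑ArithmeticFunction.vonMangoldt) - N * Real.log k) with h | h
      · rw [abs_of_nonneg h]
        linarith
      · rw [abs_of_nonpos h]
        linarith
    refine (sum_le_sum e1).trans ?_
    rw [sum_add_distrib, sum_add_distrib, sum_sub_distrib, sum_const, sum_const, Nat.card_Ioc,
      ← mul_sum, nsmul_eq_mul, nsmul_eq_mul]
    have eK : ((2 * K - K : ℕ) : ℝ) = K := by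
      have : 2 * K - K = K := by omega
      rw [this]
    rw [eK]
    have g1 : (K : ℝ) * (N : ℝ) ^ (1 - δ / 2) ≤ K * N := by gcongr
    have g2 : (K : ℝ) * N * 3 ≤ K * N * (δ * Real.log N) :=
      mul_le_mul_of_nonneg_left hlog3 (by positivity)
    have g3 : (K : ℝ) * N * (16 * δ * Real.log N) ≤ K * N * (ε * Real.log N) := by
      apply mul_le_mul_of_nonneg_left _ (by positivity)
      exact mul_le_mul_of_nonneg_right hδε hl
    have g4 : 0 ≤ (K : ℝ) * N * Δ := by positivity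
    have g5 : 0 ≤ (K : ℝ) * N * (ε * Real.log N) := by positivity
    have g6 : K * (N * ((1 + δ) * Real.log N + 108 * (2 * Δ + 6 * δ * Real.log N))) -
        K * (N * Real.log K) + K * (2 * (N * (Δ + 6 * δ * Real.log N))) =
        219 * (K * N * Δ) + 661 * (K * N * (δ * Real.log N)) := by
      rw [hΔ]
      ring
    have g7 : 220 * (K : ℝ) * N * (Δ + ε * Real.log N) =
        220 * (K * N * Δ) + 220 * (K * N * (ε * Real.log N)) := by ring
    rw [g7]
    have g8 : (K : ℝ) * N * (16 * δ * Real.log N) = 16 * (K * N * (δ * Real.log N)) := by ring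
    linarith

end

end Pool.Agent.Helper88.LC
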