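import Pool.Agent.Helper88.LC.Defs

set_option autoImplicit false

open Finset

namespace Pool.Agent.Helper88.LC

noncomputable section

open Pool.Agent.E8helper88 (cl)
open Pool.Agent.Helper112

theorem ee_eq (x : ℝ) : Pool.Agent.E8helper88.ee x = Pool.Agent.Helper112.ee x := by
  unfold Pool.Agent.E8helper88.ee Pool.Agent.Helper112.ee
  congr 1
  push_cast
  ring

theorem Icc_one_eq (N : ℕ) : Icc 1 N = Ioc 0 N := by
  ext x
  simp [Nat.succ_le_iff]

/-- class sums on `ZMod k` -/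
def gz (N k : ℕ) (f : ℕ → ℝ) (a : ZMod k) : ℂ :=
  ∑ n ∈ (Ioc 0 N).filter (fun n : ℕ => (n : ZMod k) = a), (f n : ℂ)

/-- the transform on `ZMod k` -/
def TT (N k : ℕ) [NeZero k] (f : ℕ → ℝ) (a : ZMod k) : ℂ :=
  ∑ n ∈ Ioc 0 N, (f n : ℂ) * ZMod.stdAddChar (a * (n : ZMod k))

theorem tw_eq (N k : ℕ) [NeZero k] (f : ℕ → ℝ) (χ : DirichletCharacter ℂ k) :
    tw N k f χ = ∑ a : ZMod k, χ a * gz N k f a := by
  unfold tw gz
  have h : ∀ a : ZMod k, χ a * ∑ n ∈ (Ioc 0 N).filter (fun n : ℕ => (n : ZMod k) = a), (f n : ℂ) =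
      ∑ n ∈ Ioc 0 N, if (n : ZMod k) = a then (f n : ℂ) * χ (n : ZMod k) else 0 := by
    intro a
    rw [mul_sum, sum_filter]
    refine sum_congr rfl fun n _ => ?_
    split_ifs with h
    · rw [h, mul_comm]
    · rfl
  simp_rw [h]
  rw [sum_comm]
  refine sum_congr rfl fun n _ => ?_
  rw [sum_ite_eq, if_pos (mem_univ _)]

theorem TT_gz (N k : ℕ) [NeZero k] (f : ℕ → ℝ) (a : ZMod k) :
    TT N k f a = ∑ b : ZMod k, gz N k f b * ZMod.stdAddChar (a * b) := by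
  unfold TT gz
  have h : ∀ b : ZMod k, (∑ n ∈ (Ioc 0 N).filter (fun n : ℕ => (n : ZMod k) = b), (f n : ℂ)) *
      ZMod.stdAddChar (a * b) =
      ∑ n ∈ Ioc 0 N, if (n : ZMod k) = b then (f n : ℂ) * ZMod.stdAddChar (a * (n : ZMod k))
        else 0 := by
    intro b
    rw [sum_mul, sum_filter]
    refine sum_congr rfl fun n _ => ?_
    split_ifs with h
    · rw [h]
    · rfl
  simp_rw [h]
  rw [sum_comm]
  refine sum_congr rfl fun n _ => ?_
  rw [sum_ite_eq, if_pos (mem_univ _)]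

theorem TT_ft (N k : ℕ) [NeZero k] (f : ℕ → ℝ) (j : ℕ) :
    TT N k f (j : ZMod k) = ft N f ((j : ℝ) / k) := by
  have h := MLS.T_eq k N (fun n => (f n : ℂ)) j
  unfold MLS.T at h
  unfold TT ft
  rw [← Icc_one_eq, h]
  refine sum_congr rfl fun n _ => ?_
  rw [ee_eq]
  congr 2
  ring

theorem gz_cl (N k : ℕ) [NeZero k] (f : ℕ → ℝ) (A : ℕ) (hA : A < k) :
    gz N k f (A : ZMod k) = (cl k N f A : ℂ) := by
  unfold gz cl
  rw [Complex.ofReal_sum]
  refine sum_congr (filter_congr fun n _ => ?_) fun _ _ => rfl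
  rw [ZMod.natCast_eq_natCast_iff, Nat.ModEq, Nat.mod_eq_of_lt hA]

theorem sum_zmod (k : ℕ) [NeZero k] (g : ZMod k → ℝ) :
    ∑ a : ZMod k, g a = ∑ j ∈ range k, g (j : ZMod k) := by
  symm
  refine sum_bij (fun j _ => (j : ZMod k)) (fun _ _ => mem_univ _) ?_ ?_ fun _ _ => rfl
  · intro a ha b hb h
    rw [mem_range] at ha hb
    rw [ZMod.natCast_eq_natCast_iff, Nat.ModEq, Nat.mod_eq_of_lt ha, Nat.mod_eq_of_lt hb] at h
    exact h
  · intro b _
    exact ⟨b.val, mem_range.2 (ZMod.val_lt b), ZMod.natCast_zmod_val b⟩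

theorem sum_units (k : ℕ) [NeZero k] (g : ZMod k → ℝ) :
    ∑ a : (ZMod k)ˣ, g a = ∑ j ∈ (range k).filter (fun j => Nat.Coprime j k), g (j : ZMod k) := by
  symm
  refine sum_bij (fun j hj => ZMod.unitOfCoprime j (mem_filter.1 hj).2) (fun _ _ => mem_univ _)
    ?_ ?_ fun _ _ => rfl
  · intro a ha b hb h
    rw [mem_filter, mem_range] at ha hb
    have h2 := congrArg (fun u : (ZMod k)ˣ => (u : ZMod k)) h
    simp only [ZMod.coe_unitOfCoprime] at h2
    rw [ZMod.natCast_eq_natCast_iff, Nat.ModEq, Nat.mod_eq_of_lt ha.1, Nat.mod_eq_of_lt hb.1] at h2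
    exact h2
  · intro u _
    refine ⟨(u : ZMod k).val, mem_filter.2 ⟨mem_range.2 (ZMod.val_lt _), ZMod.val_coe_unit_coprime u⟩, ?_⟩
    ext
    simp

theorem parseval_add (N k : ℕ) [NeZero k] (f : ℕ → ℝ) :
    ∑ j ∈ range k, ‖ft N f ((j : ℝ) / k)‖ ^ 2 = k * ∑ A ∈ range k, cl k N f A ^ 2 := by
  have h := MLS.parseval k (gz N k f)
  simp_rw [← TT_gz] at h
  rw [sum_zmod, sum_zmod] at h
  simp_rw [TT_ft] at h
  rw [h]
  congr 1
  refine sum_congr rfl fun A hA => ?_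
  rw [gz_cl N k f A (mem_range.1 hA), Complex.norm_real, Real.norm_eq_abs, sq_abs]

theorem sum_all' (k : ℕ) [NeZero k] (g : ZMod k → ℂ) :
    ∑ χ : DirichletCharacter ℂ k, ‖∑ a : ZMod k, χ a * g a‖ ^ 2 =
      Nat.totient k * ∑ a : (ZMod k)ˣ, ‖g a‖ ^ 2 := by
  rw [← MLS.sum_all]
  refine (Equiv.sum_comp (Equiv.inv (DirichletCharacter ℂ k))
    (fun χ => ‖∑ a : ZMod k, χ a * g a‖ ^ 2)).symm

theorem parseval_chi (N k : ℕ) [NeZero k] (f : ℕ → ℝ) :
    ∑ χ : DirichletCharacter ℂ k, ‖tw N k f χ‖ ^ 2 =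
      Nat.totient k * ∑ A ∈ (range k).filter (fun A => Nat.Coprime A k), cl k N f A ^ 2 := by
  simp_rw [tw_eq]
  rw [sum_all', sum_units k (fun a => ‖gz N k f a‖ ^ 2)]
  congr 1
  refine sum_congr rfl fun A hA => ?_
  rw [gz_cl N k f A (mem_range.1 (mem_filter.1 hA).1), Complex.norm_real, Real.norm_eq_abs, sq_abs]

theorem vanish (k : ℕ) [NeZero k] (χ : DirichletCharacter ℂ k) (j : ZMod k)
    (h : k / Nat.gcd j.val k < χ.conductor) :
    ∑ a : ZMod k, χ a * ZMod.stdAddChar (j * a) = 0 := by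
  by_contra h0
  set d := k / Nat.gcd j.val k with hd
  have hg : Nat.gcd j.val k ∣ k := Nat.gcd_dvd_right _ _
  have hdk : d ∣ k := Nat.div_dvd_of_dvd hg
  have hmul : (j * (d : ZMod k)) = 0 := by
    have e : j = (j.val : ZMod k) := (ZMod.natCast_zmod_val j).symm
    rw [e, ← Nat.cast_mul, ZMod.natCast_eq_zero_iff, hd]
    obtain ⟨c, hc⟩ := Nat.gcd_dvd_left j.val k
    refine ⟨c, ?_⟩
    calc j.val * (k / Nat.gcd j.val k) = (Nat.gcd j.val k * c) * (k / Nat.gcd j.val k) := by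
          rw [← hc]
      _ = (Nat.gcd j.val k * (k / Nat.gcd j.val k)) * c := by ring
      _ = k * c := by rw [Nat.mul_div_cancel' hg]
  have he : (AddChar.mulShift (ZMod.stdAddChar : AddChar (ZMod k) ℂ) j).mulShift (d : ZMod k) =
      1 := by
    rw [AddChar.mulShift_mulShift, mul_comm, mul_comm, hmul, AddChar.mulShift_zero]
  have hne : gaussSum χ (AddChar.mulShift (ZMod.stdAddChar : AddChar (ZMod k) ℂ) j) ≠ 0 := by
    unfold gaussSum
    simpa [AddChar.mulShift_apply] using h0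
  have hf := factorsThrough_of_gaussSum_ne_zero
    (AddChar.mulShift (ZMod.stdAddChar : AddChar (ZMod k) ℂ) j) hdk he hne
  have hle : χ.conductor ≤ d := Nat.sInf_le hf
  omega

end

end Pool.Agent.Helper88.LC
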