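import Pool.Agent.Helper88.LC.Mean

set_option autoImplicit false

open Finset

namespace Pool.Agent.Helper88.LC

noncomputable section

theorem harm (D : ℕ) : ∑ q ∈ Icc 1 D, 1 / (q : ℝ) ≤ 1 + Real.log D := by
  have h := harmonic_le_one_add_log D
  rw [harmonic_eq_sum_Icc] at h
  push_cast at h
  simpa [one_div] using h

theorem TQ_cauchy (N q : ℕ) (h : ℝ → ℝ) (h0 : ∀ x, 0 ≤ h x) :
    TQ N q h ≤ Real.sqrt q * Real.sqrt (TQ N q (fun x => h x ^ 2)) := by
  unfold TQ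
  rw [← Real.sqrt_mul (Nat.cast_nonneg q)]
  apply Real.le_sqrt_of_sq_le
  refine sq_sum_le_card_mul_sum_sq.trans ?_
  apply mul_le_mul_of_nonneg_right _ (sum_nonneg fun _ _ => sq_nonneg _)
  have : ((range q).filter (fun a => Nat.Coprime a q)).card ≤ q := by
    calc _ ≤ (range q).card := card_le_card (filter_subset _ _)
      _ = q := card_range q
  exact_mod_cast this

theorem sqrt_sum (N D : ℕ) (f : ℕ → ℝ) :
    ∑ q ∈ Icc 1 D, Real.sqrt (1 / (q : ℝ)) * Real.sqrt (TQ N q (fun x => ‖ft N f x‖ ^ 2)) ≤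
      Real.sqrt ((1 + Real.log D) * (6 * (N + (D : ℝ) ^ 2) * ∑ n ∈ Ioc 0 N, f n ^ 2)) := by
  have h1 := Real.sum_mul_le_sqrt_mul_sqrt (Icc 1 D) (fun q : ℕ => Real.sqrt (1 / (q : ℝ)))
    (fun q => Real.sqrt (TQ N q (fun x => ‖ft N f x‖ ^ 2)))
  refine h1.trans ?_
  rw [← Real.sqrt_mul (sum_nonneg fun _ _ => sq_nonneg _)]
  apply Real.sqrt_le_sqrt
  have e1 : ∑ q ∈ Icc 1 D, Real.sqrt (1 / (q : ℝ)) ^ 2 = ∑ q ∈ Icc 1 D, 1 / (q : ℝ) :=
    sum_congr rfl fun q _ => Real.sq_sqrt (by positivity)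
  have e2 : ∑ q ∈ Icc 1 D, Real.sqrt (TQ N q (fun x => ‖ft N f x‖ ^ 2)) ^ 2 =
      ∑ q ∈ Icc 1 D, TQ N q (fun x => ‖ft N f x‖ ^ 2) :=
    sum_congr rfl fun q _ => Real.sq_sqrt (TQ_nonneg N q _ fun _ => by positivity)
  rw [e1, e2]
  have hlog : 0 ≤ Real.log D := Real.log_natCast_nonneg D
  apply mul_le_mul (harm D) (ls N D f) _ (by linarith)
  exact sum_nonneg fun q _ => TQ_nonneg N q _ fun _ => by positivity

theorem low_mean (N K D : ℕ) (hK : 1 ≤ K) (f g : ℕ → ℝ) (B : ℝ)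
    (hB : ∀ α : ℝ, ‖ft N g α‖ ≤ B) :
    ∑ k ∈ Ioc K (2 * K), (1 / (k : ℝ)) *
      ∑ j ∈ (range k).filter (fun j => k / Nat.gcd j k < D),
        ‖ft N f ((j : ℝ) / k)‖ * ‖ft N g ((j : ℝ) / k)‖ ≤
      3 * B * Real.sqrt ((1 + Real.log D) *
        (6 * (N + (D : ℝ) ^ 2) * ∑ n ∈ Ioc 0 N, f n ^ 2)) := by
  have hB0 : 0 ≤ B := (norm_nonneg _).trans (hB 0)
  have h1 := mean_den K hK (fun q => q < D) (fun x => ‖ft N f x‖ * ‖ft N g x‖)
    (fun _ => by positivity) N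
  refine h1.trans ?_
  have h2 : ∀ q ∈ (Icc 1 (2 * K)).filter (fun q => q < D),
      3 / (q : ℝ) * TQ N q (fun x => ‖ft N f x‖ * ‖ft N g x‖) ≤
      3 * B * (Real.sqrt (1 / (q : ℝ)) * Real.sqrt (TQ N q (fun x => ‖ft N f x‖ ^ 2))) := by
    intro q hq
    rw [mem_filter, mem_Icc] at hq
    have hq0 : (0 : ℝ) < q := by
      have : 0 < q := by omega
      exact_mod_cast this
    have h3 : TQ N q (fun x => ‖ft N f x‖ * ‖ft N g x‖) ≤ B * TQ N q (fun x => ‖ft N f x‖) := by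
      unfold TQ
      rw [mul_sum]
      refine sum_le_sum fun a _ => ?_
      rw [mul_comm B]
      exact mul_le_mul_of_nonneg_left (hB _) (norm_nonneg _)
    have h4 := TQ_cauchy N q (fun x => ‖ft N f x‖) fun _ => norm_nonneg _
    have e : Real.sqrt (1 / (q : ℝ)) = 1 / q * Real.sqrt q := by
      rw [Real.sqrt_div (by norm_num), Real.sqrt_one]
      have : Real.sqrt q * Real.sqrt q = q := Real.mul_self_sqrt hq0.le
      have hs : Real.sqrt q ≠ 0 := (Real.sqrt_pos.2 hq0).ne'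
      field_simp
      rw [sq, this]
    calc 3 / (q : ℝ) * TQ N q (fun x => ‖ft N f x‖ * ‖ft N g x‖) ≤
          3 / (q : ℝ) * (B * (Real.sqrt q * Real.sqrt (TQ N q (fun x => ‖ft N f x‖ ^ 2)))) := by
          gcongr
          exact h3.trans (mul_le_mul_of_nonneg_left h4 hB0)
      _ = _ := by rw [e]; ring
  refine (sum_le_sum h2).trans ?_
  rw [← mul_sum]
  apply mul_le_mul_of_nonneg_left _ (by positivity)
  refine le_trans (sum_le_sum_of_subset_of_nonneg ?_ fun q _ _ => by positivity) (sqrt_sum N D f)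
  intro q hq
  simp only [mem_filter, mem_Icc] at hq ⊢
  omega

theorem low_mean' (N K D : ℕ) (hK : 1 ≤ K) (g : ℕ → ℝ) (B : ℝ)
    (hB : ∀ α : ℝ, ‖ft N g α‖ ≤ B) :
    ∑ k ∈ Ioc K (2 * K), (1 / (k : ℝ)) *
      ∑ j ∈ (range k).filter (fun j => k / Nat.gcd j k < D),
        ‖ft N g ((j : ℝ) / k)‖ ^ 2 ≤ 3 * B ^ 2 * D := by
  have hB0 : 0 ≤ B := (norm_nonneg _).trans (hB 0)
  have h1 := mean_den K hK (fun q => q < D) (fun x => ‖ft N g x‖ ^ 2)
    (fun _ => by positivity) N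
  refine h1.trans ?_
  have h2 : ∀ q ∈ (Icc 1 (2 * K)).filter (fun q => q < D),
      3 / (q : ℝ) * TQ N q (fun x => ‖ft N g x‖ ^ 2) ≤ 3 * B ^ 2 := by
    intro q hq
    rw [mem_filter, mem_Icc] at hq
    have hq0 : (0 : ℝ) < q := by
      have : 0 < q := by omega
      exact_mod_cast this
    have h3 : TQ N q (fun x => ‖ft N g x‖ ^ 2) ≤ q * B ^ 2 := by
      unfold TQ
      calc _ ≤ ∑ a ∈ (range q).filter (fun a => Nat.Coprime a q), B ^ 2 := by
            refine sum_le_sum fun a _ => ?_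
            exact pow_le_pow_left₀ (norm_nonneg _) (hB _) 2
        _ ≤ ∑ a ∈ range q, B ^ 2 := sum_le_sum_of_subset_of_nonneg (filter_subset _ _)
            fun _ _ _ => by positivity
        _ = _ := by rw [sum_const, card_range, nsmul_eq_mul]
    calc 3 / (q : ℝ) * TQ N q (fun x => ‖ft N g x‖ ^ 2) ≤ 3 / (q : ℝ) * (q * B ^ 2) := by gcongr
      _ = _ := by field_simp
  refine (sum_le_sum h2).trans ?_
  rw [sum_const, nsmul_eq_mul]
  have h5 : (((Icc 1 (2 * K)).filter (fun q => q < D)).card : ℝ) ≤ D := by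
    have : (Icc 1 (2 * K)).filter (fun q => q < D) ⊆ Icc 1 D := by
      intro q hq
      simp only [mem_filter, mem_Icc] at hq ⊢
      omega
    have := card_le_card this
    rw [Nat.card_Icc] at this
    have h6 : ((Icc 1 (2 * K)).filter (fun q => q < D)).card ≤ D := by omega
    exact_mod_cast h6
  calc _ ≤ (D : ℝ) * (3 * B ^ 2) := by gcongr
    _ = _ := by ring

end

end Pool.Agent.Helper88.LC
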