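import Pool.Agent.Helper88.LC.Four

set_option autoImplicit false

open Finset

namespace Pool.Agent.Helper88.LC

noncomputable section

open Pool.Agent.E8helper88 (cl)
open Pool.Agent.Helper112

/-- sum over the fractions with denominator exactly `q` -/
def TQ (N q : ℕ) (g : ℝ → ℝ) : ℝ :=
  ∑ a ∈ (range q).filter (fun a => Nat.Coprime a q), g ((a : ℝ) / q)

theorem group_den (k : ℕ) (hk : 0 < k) (P : ℕ → Prop) [DecidablePred P] (g : ℝ → ℝ) (N : ℕ) :
    ∑ j ∈ (range k).filter (fun j => P (k / Nat.gcd j k)), g ((j : ℝ) / k) =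
      ∑ q ∈ k.divisors.filter P, TQ N q g := by
  unfold TQ
  rw [sum_sigma']
  refine sum_bij' (fun j _ => (⟨k / Nat.gcd j k, j / Nat.gcd j k⟩ : Σ _ : ℕ, ℕ))
    (fun s _ => s.2 * (k / s.1)) ?_ ?_ ?_ ?_ ?_
  · intro j hj
    rw [mem_filter, mem_range] at hj
    have hg : 0 < Nat.gcd j k := Nat.gcd_pos_of_pos_right j hk
    have hgk : Nat.gcd j k ∣ k := Nat.gcd_dvd_right _ _
    have hgj : Nat.gcd j k ∣ j := Nat.gcd_dvd_left _ _
    simp only [mem_sigma, mem_filter, Nat.mem_divisors, mem_range]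
    refine ⟨⟨⟨Nat.div_dvd_of_dvd hgk, hk.ne'⟩, hj.2⟩, ?_, Nat.coprime_div_gcd_div_gcd hg⟩
    exact Nat.div_lt_div_of_lt_of_dvd hgk hj.1
  · rintro ⟨q, a⟩ hs
    simp only [mem_sigma, mem_filter, Nat.mem_divisors, mem_range] at hs
    obtain ⟨⟨⟨hqk, _⟩, hP⟩, haq, hcop⟩ := hs
    obtain ⟨c, rfl⟩ := hqk
    have hq : 0 < q := Nat.pos_of_mul_pos_right hk |> fun h => by
      rcases Nat.eq_zero_or_pos q with h0 | h0
      · subst h0; simp at hk
      · exact h0
    have hc : 0 < c := by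
      rcases Nat.eq_zero_or_pos c with h0 | h0
      · subst h0; simp at hk
      · exact h0
    have e1 : q * c / q = c := Nat.mul_div_cancel_left c hq
    have e2 : Nat.gcd (a * c) (q * c) = c := by
      rw [Nat.gcd_mul_right, hcop, one_mul]
    simp only [mem_filter, mem_range]
    rw [e1, e2, Nat.mul_div_cancel q hc]
    exact ⟨Nat.mul_lt_mul_of_pos_right haq hc, hP⟩
  · intro j hj
    rw [mem_filter, mem_range] at hj
    have hg : 0 < Nat.gcd j k := Nat.gcd_pos_of_pos_right j hk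
    have hgk : Nat.gcd j k ∣ k := Nat.gcd_dvd_right _ _
    have hgj : Nat.gcd j k ∣ j := Nat.gcd_dvd_left _ _
    simp only
    rw [Nat.div_div_self hgk hk.ne', Nat.div_mul_cancel hgj]
  · rintro ⟨q, a⟩ hs
    simp only [mem_sigma, mem_filter, Nat.mem_divisors, mem_range] at hs
    obtain ⟨⟨⟨hqk, _⟩, hP⟩, haq, hcop⟩ := hs
    obtain ⟨c, rfl⟩ := hqk
    have hq : 0 < q := by
      rcases Nat.eq_zero_or_pos q with h0 | h0
      · subst h0; simp at hk
      · exact h0
    have hc : 0 < c := by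
      rcases Nat.eq_zero_or_pos c with h0 | h0
      · subst h0; simp at hk
      · exact h0
    have e1 : q * c / q = c := Nat.mul_div_cancel_left c hq
    have e2 : Nat.gcd (a * c) (q * c) = c := by
      rw [Nat.gcd_mul_right, hcop, one_mul]
    simp only
    rw [e1, e2, Nat.mul_div_cancel q hc, Nat.mul_div_cancel a hc]
  · intro j hj
    rw [mem_filter, mem_range] at hj
    have hg : 0 < Nat.gcd j k := Nat.gcd_pos_of_pos_right j hk
    have hgk : Nat.gcd j k ∣ k := Nat.gcd_dvd_right _ _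
    have hgj : Nat.gcd j k ∣ j := Nat.gcd_dvd_left _ _
    simp only
    congr 1
    rw [Nat.cast_div hgj (by exact_mod_cast hg.ne'), Nat.cast_div hgk (by exact_mod_cast hg.ne'),
      div_div_div_cancel_right₀ (by exact_mod_cast hg.ne')]

theorem TQ_nonneg (N q : ℕ) (g : ℝ → ℝ) (hg : ∀ x, 0 ≤ g x) : 0 ≤ TQ N q g :=
  sum_nonneg fun _ _ => hg _

/-- number of multiples -/
theorem card_mult (K q : ℕ) (hK : 1 ≤ K) (hq : 1 ≤ q) :
    (((Ioc K (2 * K)).filter (fun k => q ∣ k)).card : ℝ) * (1 / (K : ℝ)) ≤ 3 / q := by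
  have hK0 : (0 : ℝ) < K := by exact_mod_cast hK
  have hq0 : (0 : ℝ) < q := by exact_mod_cast hq
  rcases Nat.lt_or_ge (2 * K) q with h | h
  · have : (Ioc K (2 * K)).filter (fun k => q ∣ k) = ∅ := by
      rw [filter_eq_empty_iff]
      intro k hk hd
      rw [mem_Ioc] at hk
      have := Nat.le_of_dvd (by omega) hd
      omega
    rw [this, card_empty, Nat.cast_zero, zero_mul]
    positivity
  · have h1 : ((Ioc K (2 * K)).filter (fun k => q ∣ k)).card + K / q = 2 * K / q := by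
      rw [← Nat.Ioc_filter_dvd_card_eq_div (2 * K) q, ← Nat.Ioc_filter_dvd_card_eq_div K q,
        ← card_union_of_disjoint, ← filter_union, union_comm,
        Ioc_union_Ioc_eq_Ioc (Nat.zero_le K) (by omega)]
      exact disjoint_filter_filter (Ioc_disjoint_Ioc_of_le le_rfl).symm
    have h2 : ((2 * K / q : ℕ) : ℝ) ≤ (2 * K : ℕ) / q := Nat.cast_div_le
    have h3 : ((K : ℕ) : ℝ) / q < (K / q : ℕ) + 1 := by
      rw [div_lt_iff₀ hq0]
      have : K < (K / q + 1) * q := by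
        have := Nat.lt_div_mul_add hq (a := K)
        linarith
      exact_mod_cast this
    have h4 : (((Ioc K (2 * K)).filter (fun k => q ∣ k)).card : ℝ) + (K / q : ℕ) =
        (2 * K / q : ℕ) := by exact_mod_cast h1
    have h5 : (q : ℝ) ≤ 2 * K := by exact_mod_cast h
    have h6 : (((Ioc K (2 * K)).filter (fun k => q ∣ k)).card : ℝ) ≤ K / q + 1 := by
      push_cast at h2 h3 h4
      have : (2 : ℝ) * K / q = K / q + K / q := by ring
      linarith
    have h7 : (1 : ℝ) ≤ 2 * K / q := by rw [le_div_iff₀ hq0]; linarith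
    calc (((Ioc K (2 * K)).filter (fun k => q ∣ k)).card : ℝ) * (1 / (K : ℝ)) ≤
          (3 * K / q) * (1 / (K : ℝ)) := by
          apply mul_le_mul_of_nonneg_right _ (by positivity)
          have : (3 : ℝ) * K / q = K / q + 2 * K / q := by ring
          linarith
      _ = 3 / q := by field_simp

/-- a sum over fractions of all `k ∈ (K, 2K]`, grouped by denominators -/
theorem mean_den (K : ℕ) (hK : 1 ≤ K) (P : ℕ → Prop) [DecidablePred P] (g : ℝ → ℝ)
    (hg : ∀ x, 0 ≤ g x) (N : ℕ) :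
    ∑ k ∈ Ioc K (2 * K), (1 / (k : ℝ)) * ∑ j ∈ (range k).filter (fun j => P (k / Nat.gcd j k)),
      g ((j : ℝ) / k) ≤ ∑ q ∈ (Icc 1 (2 * K)).filter P, 3 / (q : ℝ) * TQ N q g := by
  have hK0 : (0 : ℝ) < K := by exact_mod_cast hK
  have h1 : ∀ k ∈ Ioc K (2 * K), (1 / (k : ℝ)) *
      ∑ j ∈ (range k).filter (fun j => P (k / Nat.gcd j k)), g ((j : ℝ) / k) ≤
      ∑ q ∈ (Icc 1 (2 * K)).filter P, if q ∣ k then (1 / (K : ℝ)) * TQ N q g else 0 := by
    intro k hk
    rw [mem_Ioc] at hk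
    have hk0 : 0 < k := by omega
    have hkK : (K : ℝ) ≤ k := by exact_mod_cast hk.1.le
    rw [group_den k hk0 P g N, ← sum_filter, mul_sum]
    have e : k.divisors.filter P ⊆ ((Icc 1 (2 * K)).filter P).filter (fun q => q ∣ k) := by
      intro q hq
      simp only [mem_filter, Nat.mem_divisors, mem_Icc] at hq ⊢
      have := Nat.le_of_dvd hk0 hq.1.1
      have := Nat.pos_of_dvd_of_pos hq.1.1 hk0
      exact ⟨⟨⟨by omega, by omega⟩, hq.2⟩, hq.1.1⟩
    calc ∑ q ∈ k.divisors.filter P, 1 / (k : ℝ) * TQ N q g ≤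
          ∑ q ∈ k.divisors.filter P, 1 / (K : ℝ) * TQ N q g := by
          refine sum_le_sum fun q _ => ?_
          have := TQ_nonneg N q g hg
          gcongr
      _ ≤ _ := sum_le_sum_of_subset_of_nonneg e fun q _ _ => by
          have := TQ_nonneg N q g hg
          positivity
  refine (sum_le_sum h1).trans ?_
  rw [sum_comm]
  refine sum_le_sum fun q hq => ?_
  rw [mem_filter, mem_Icc] at hq
  rw [← sum_filter, sum_const, nsmul_eq_mul, ← mul_assoc]
  exact mul_le_mul_of_nonneg_right (card_mult K q hK hq.1.1) (TQ_nonneg N q g hg)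

theorem ft_eq (N : ℕ) (f : ℕ → ℝ) (a q : ℕ) : ft N f ((a : ℝ) / q) =
    ∑ n ∈ Icc 1 N, (fun n : ℕ => (f n : ℂ)) n * Pool.Agent.Helper112.ee (n * a / q) := by
  unfold ft
  rw [Icc_one_eq]
  refine sum_congr rfl fun n _ => ?_
  rw [ee_eq, mul_div_assoc]

theorem ls (N F : ℕ) (f : ℕ → ℝ) : ∑ q ∈ Icc 1 F, TQ N q (fun x => ‖ft N f x‖ ^ 2) ≤
    6 * (N + (F : ℝ) ^ 2) * ∑ n ∈ Ioc 0 N, f n ^ 2 := by
  have h := additive_large_sieve N F (fun n => (f n : ℂ))
  have e1 : ∑ n ∈ Icc 1 N, ‖(fun n : ℕ => (f n : ℂ)) n‖ ^ 2 = ∑ n ∈ Ioc 0 N, f n ^ 2 := by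
    rw [Icc_one_eq]
    refine sum_congr rfl fun n _ => ?_
    simp only
    rw [Complex.norm_real, Real.norm_eq_abs, sq_abs]
  rw [e1] at h
  have e2 : ∑ q ∈ Icc 1 F, TQ N q (fun x => ‖ft N f x‖ ^ 2) =
      ∑ q ∈ Icc 1 F, ∑ a ∈ (range q).filter (fun a => Nat.Coprime a q),
        ‖∑ n ∈ Icc 1 N, (fun n : ℕ => (f n : ℂ)) n * Pool.Agent.Helper112.ee (n * a / q)‖ ^ 2 := by
    refine sum_congr rfl fun q _ => ?_
    unfold TQ
    refine sum_congr rfl fun a _ => ?_
    simp only [ft_eq]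
  rw [e2]
  exact h

theorem abel (T : ℕ → ℝ) (D M : ℕ) (hD : 1 ≤ D) : ∑ q ∈ Icc D M, T q / q =
    (∑ q ∈ Icc D M, T q) / (M + 1) +
      ∑ t ∈ Icc D M, (∑ q ∈ Icc D t, T q) / ((t : ℝ) * (t + 1)) := by
  induction M with
  | zero =>
    have : Icc D 0 = ∅ := Icc_eq_empty (by omega)
    rw [this]
    simp
  | succ M ih =>
    by_cases h : D ≤ M + 1
    · rw [sum_Icc_succ_top h, sum_Icc_succ_top h (fun t => (∑ q ∈ Icc D t, T q) /
        ((t : ℝ) * (t + 1))), sum_Icc_succ_top h T, ih]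
      have hM : ((M : ℝ) + 1) ≠ 0 := by positivity
      have hM3 : ((M : ℝ) + 1 + 1) ≠ 0 := by positivity
      push_cast
      field_simp
      ring
    · have h1 : Icc D (M + 1) = ∅ := Icc_eq_empty (by omega)
      rw [h1]
      simp

theorem tele (D M : ℕ) (hD : 1 ≤ D) :
    ∑ t ∈ Icc D M, 1 / ((t : ℝ) * (t + 1)) ≤ 1 / D := by
  have hD0 : (0 : ℝ) < D := by exact_mod_cast hD
  by_cases h : D ≤ M + 1
  · have e : ∀ M : ℕ, D ≤ M + 1 →
        ∑ t ∈ Icc D M, 1 / ((t : ℝ) * (t + 1)) = 1 / D - 1 / (M + 1) := by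
      intro M hM
      induction M with
      | zero =>
        have hD1 : D = 1 := by omega
        subst hD1
        simp
      | succ M ih =>
        rcases Nat.lt_or_ge (M + 1) D with h2 | h2
        · have : D = M + 2 := by omega
          subst this
          rw [Icc_eq_empty (by omega)]
          push_cast
          ring_nf
        · rw [sum_Icc_succ_top h2, ih h2]
          have hM1 : ((M : ℝ) + 1) ≠ 0 := by positivity
          have hM3 : ((M : ℝ) + 1 + 1) ≠ 0 := by positivity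
          push_cast
          field_simp
          ring
    rw [e M h]
    have : (0 : ℝ) < 1 / ((M : ℝ) + 1) := by positivity
    linarith
  · rw [Icc_eq_empty (by omega), sum_empty]
    positivity

/-- the dyadic large sieve -/
theorem ls_dyadic (N D M : ℕ) (hD : 1 ≤ D) (hM : 1 ≤ M) (f : ℕ → ℝ) :
    ∑ q ∈ Icc D M, TQ N q (fun x => ‖ft N f x‖ ^ 2) / q ≤
      12 * ((N : ℝ) / D + M) * ∑ n ∈ Ioc 0 N, f n ^ 2 := by
  set T : ℕ → ℝ := fun q => TQ N q (fun x => ‖ft N f x‖ ^ 2) with hT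
  set S := ∑ n ∈ Ioc 0 N, f n ^ 2 with hS
  have hS0 : 0 ≤ S := sum_nonneg fun _ _ => sq_nonneg _
  have hD0 : (0 : ℝ) < D := by exact_mod_cast hD
  have hN0 : (0 : ℝ) ≤ N := Nat.cast_nonneg _
  by_cases hDM : D ≤ M
  · have hDM' : (D : ℝ) ≤ M := by exact_mod_cast hDM
    have hT0 : ∀ q, 0 ≤ T q := fun q => TQ_nonneg N q _ fun _ => by positivity
    have hsum : ∀ t : ℕ, ∑ q ∈ Icc D t, T q ≤ 6 * (N + (t : ℝ) ^ 2) * S := by
      intro t
      refine le_trans (sum_le_sum_of_subset_of_nonneg ?_ fun q _ _ => hT0 q) (ls N t f)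
      exact Icc_subset_Icc hD le_rfl
    rw [abel T D M hD]
    have h1 : (∑ q ∈ Icc D M, T q) / (M + 1) ≤ 6 * ((N : ℝ) / D + M) * S := by
      rw [div_le_iff₀ (by positivity)]
      refine (hsum M).trans ?_
      have h2 : (N : ℝ) ≤ (N : ℝ) / D * (M + 1) := by
        rw [div_mul_eq_mul_div, le_div_iff₀ hD0]
        nlinarith
      have h3 : (N : ℝ) + (M : ℝ) ^ 2 ≤ ((N : ℝ) / D + M) * (M + 1) := by
        have : (0 : ℝ) ≤ M := Nat.cast_nonneg _
        nlinarith
      calc 6 * (N + (M : ℝ) ^ 2) * S ≤ 6 * (((N : ℝ) / D + M) * (M + 1)) * S := by gcongr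
        _ = _ := by ring
    have h2 : ∑ t ∈ Icc D M, (∑ q ∈ Icc D t, T q) / ((t : ℝ) * (t + 1)) ≤
        6 * ((N : ℝ) / D + M) * S := by
      have h3 : ∀ t ∈ Icc D M, (∑ q ∈ Icc D t, T q) / ((t : ℝ) * (t + 1)) ≤
          6 * S * (N * (1 / ((t : ℝ) * (t + 1))) + 1) := by
        intro t ht
        rw [mem_Icc] at ht
        have ht0 : (0 : ℝ) < t := by
          have : 0 < t := by omega
          exact_mod_cast this
        rw [div_le_iff₀ (by positivity)]
        refine (hsum t).trans ?_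
        have e : 6 * S * (N * (1 / ((t : ℝ) * (t + 1))) + 1) * (t * (t + 1)) =
            6 * S * (N + t * (t + 1)) := by
          field_simp
        rw [e]
        nlinarith
      refine (sum_le_sum h3).trans ?_
      rw [← mul_sum, sum_add_distrib, ← mul_sum, sum_const, Nat.card_Icc, nsmul_eq_mul, mul_one]
      have h4 := tele D M hD
      have h5 : ((M + 1 - D : ℕ) : ℝ) ≤ M := by
        have : M + 1 - D ≤ M := by omega
        exact_mod_cast this
      calc 6 * S * (N * ∑ t ∈ Icc D M, 1 / ((t : ℝ) * (t + 1)) + ((M + 1 - D : ℕ) : ℝ)) ≤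
            6 * S * (N * (1 / D) + M) := by gcongr
        _ = _ := by ring
    linarith
  · rw [Icc_eq_empty (by omega), sum_empty]
    positivity

/-- M2: the high-denominator part on average -/
theorem UU_mean (N K D : ℕ) (hK : 1 ≤ K) (hD : 1 ≤ D) (f : ℕ → ℝ) :
    ∑ k ∈ Ioc K (2 * K), UU N k D f ≤
      36 * ((N : ℝ) / D + 2 * K) * ∑ n ∈ Ioc 0 N, f n ^ 2 := by
  have h1 := mean_den K hK (fun q => D ≤ q) (fun x => ‖ft N f x‖ ^ 2) (fun _ => by positivity) N
  unfold UU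
  refine h1.trans ?_
  have h2 : (Icc 1 (2 * K)).filter (fun q => D ≤ q) = Icc D (2 * K) := by
    ext q
    simp only [mem_filter, mem_Icc]
    omega
  rw [h2]
  have h3 := ls_dyadic N D (2 * K) hD (by omega) f
  have h4 : ∑ q ∈ Icc D (2 * K), 3 / (q : ℝ) * TQ N q (fun x => ‖ft N f x‖ ^ 2) =
      3 * ∑ q ∈ Icc D (2 * K), TQ N q (fun x => ‖ft N f x‖ ^ 2) / q := by
    rw [mul_sum]
    refine sum_congr rfl fun q _ => ?_
    ring
  rw [h4]
  push_cast at h3
  linarith

end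

end Pool.Agent.Helper88.LC
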