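import Pool.Agent.Helper88.LC.Defs

set_option autoImplicit false

open Finset

namespace Pool.Agent.Helper88.LC

noncomputable section

open Pool.Agent.E8helper88

/-- everything about the approximant `F` that is used -/
theorem pack (δ : ℝ) (hδ : 0 < δ) (hδ1 : δ ≤ 1 / 16) : ∃ x0 : ℕ, ∀ K x : ℕ, x0 ≤ x → 1 ≤ K →
    K ≤ x → (x : ℝ) ^ (1 + 16 * δ) ≤ 16 * (K : ℝ) ^ 2 →
    ∃ (F : ℕ → ℝ) (B : ℝ) (E : ℕ → ℝ), 0 ≤ B ∧
      B ≤ 48 * (1 + Real.log x) ^ 4 * (K * (x : ℝ) ^ (-δ)) ∧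
      (∀ α : ℝ, ‖ft x F α‖ ≤ B) ∧
      x * (2 * Real.log K - (1 + 5 * δ) * Real.log x) ≤
        ∑ m ∈ Ioc 0 x, (2 * ArithmeticFunction.vonMangoldt m * F m - F m ^ 2) ∧
      (∀ k, 0 ≤ E k) ∧
      ∑ k ∈ Ioc K (2 * K), E k ≤ K * (x : ℝ) ^ (1 - 3 * δ / 4) ∧
      ∀ k : ℕ, 0 < k →
        |∑ j ∈ Icc 1 x, co x ArithmeticFunction.vonMangoldt F (j * k)| ≤ E k ∧
        |∑ j ∈ Icc 1 x, co x F ArithmeticFunction.vonMangoldt (j * k)| ≤ E k ∧
        |∑ j ∈ Icc 1 x, co x F F (j * k)| ≤ E k := by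
  obtain ⟨x1, hx1⟩ := params δ hδ hδ1
  obtain ⟨N0, hN0⟩ := main_norm δ hδ (by linarith)
  obtain ⟨Cτ, hCτ, hτ⟩ := H353.divisor_bound_real (δ / 8) (by positivity)
  obtain ⟨x2, hx2⟩ := growth 6 (δ / 8) (2592 * Cτ + 576 * Cτ ^ 2 + 128) (by positivity)
    (by positivity)
  refine ⟨max (max x1 x2) (2 * N0 + 2), fun K x hx hK hKx hcond => ?_⟩
  have hxx1 : x1 ≤ x := ((le_max_left _ _).trans (le_max_left _ _)).trans hx
  have hxx2 : x2 ≤ x := ((le_max_right _ _).trans (le_max_left _ _)).trans hx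
  have hxN0 : 2 * N0 + 2 ≤ x := (le_max_right _ _).trans hx
  obtain ⟨R, Q, hQ1, hQR, hpar, hlR, hlQ, hXQ⟩ := hx1 K x hxx1 hK hKx hcond
  have hgr := hx2 x hxx2
  have hxn : 1 ≤ x := by omega
  have hx1r : (1 : ℝ) ≤ x := by exact_mod_cast hxn
  have hxpos : (0 : ℝ) < x := by linarith
  have hK0 : (0 : ℝ) < K := by exact_mod_cast hK
  have hKx' : (K : ℝ) ≤ x := by exact_mod_cast hKx
  have hl : 0 ≤ Real.log x := Real.log_nonneg hx1r
  set ℓ := 1 + Real.log x with hℓ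
  have hℓ1 : 1 ≤ ℓ := by linarith
  have hpw : ∀ i j : ℕ, i ≤ j → ℓ ^ i ≤ ℓ ^ j := fun i j h => pow_le_pow_right₀ hℓ1 h
  have rp : ∀ s t : ℝ, (x : ℝ) ^ (s + t) = (x : ℝ) ^ s * (x : ℝ) ^ t := fun s t =>
    Real.rpow_add hxpos s t
  have mono : ∀ s t : ℝ, s ≤ t → (x : ℝ) ^ s ≤ (x : ℝ) ^ t := fun s t h =>
    Real.rpow_le_rpow_of_exponent_le hx1r h
  have pos : ∀ s : ℝ, 0 < (x : ℝ) ^ s := fun s => Real.rpow_pos_of_pos hxpos s
  set X8 := (x : ℝ) ^ (δ / 8) with hX8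
  have hX8pos : 0 < X8 := pos _
  have hℓ6 : 1 ≤ ℓ ^ 6 := one_le_pow₀ hℓ1
  have g128 : 128 ≤ X8 := by nlinarith
  have gA : 2592 * Cτ * ℓ ^ 6 ≤ X8 := by
    have : 0 ≤ (576 * Cτ ^ 2 + 128) * ℓ ^ 6 := by positivity
    nlinarith
  have hQR' : (Q : ℝ) ≤ R := by exact_mod_cast hQR
  have hQ0 : (0 : ℝ) < Q := by exact_mod_cast hQ1
  have hR0 : (0 : ℝ) < R := by linarith
  have hlQR : Real.log Q ≤ Real.log R := Real.log_le_log hQ0 hQR'
  obtain ⟨hRx, hp1, hp2, hp3⟩ := hpar x (by omega) le_rfl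
  have hRx' : (R : ℝ) ≤ x := by exact_mod_cast hRx
  have hlRx : 1 + Real.log R ≤ ℓ := by
    have := Real.log_le_log hR0 hRx'
    linarith
  have hlR0 : 0 ≤ Real.log R := Real.log_natCast_nonneg R
  set B := 48 * ℓ ^ 4 * (K * (x : ℝ) ^ (-δ)) with hB
  have hB0 : 0 ≤ B := by have := pos (-δ); positivity
  have hsup : ∀ X ≤ x, ∀ α : ℝ, ‖∑ n ∈ Ioc 0 X, (FF R Q n : ℂ) * ee (n * α)‖ ≤ B := by
    intro X hX α
    have hX' : (X : ℝ) ≤ x := by exact_mod_cast hX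
    refine (sup_bound R Q X hQ1 hQR α).trans ?_
    calc 24 * (1 + Real.log R) ^ 4 * ((X : ℝ) / Q + R) ≤ 24 * ℓ ^ 4 * ((x : ℝ) / Q + R) := by
          gcongr
      _ ≤ 24 * ℓ ^ 4 * (2 * (K * (x : ℝ) ^ (-δ))) := by gcongr
      _ = B := by rw [hB]; ring
  set H := 28 * x * ℓ with hH
  have hmain := hN0 x R Q (by omega) hQ1 hQR hRx hp1 hp2 hp3
  have hfn : ∑ n ∈ Ioc 0 x, FF R Q n ^ 2 ≤ H :=
    f_norm x R Q δ (by linarith) hlQR hmain
  have hΛn : ∑ n ∈ Ioc 0 x, ArithmeticFunction.vonMangoldt n ^ 2 ≤ H := by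
    refine (lam_sq_upper x).trans ?_
    rw [hH]
    have : Real.log x ≤ ℓ := by linarith
    have h28 : 6 * (x : ℝ) * Real.log x ≤ 28 * x * ℓ := by
      gcongr
      norm_num
    exact h28
  obtain ⟨W, hW0, hW, hWs⟩ := majorants x hxn (FF R Q) B H (hsup x le_rfl) hfn hΛn
  have hτx : ∀ h ∈ Ioc 0 x, (h.divisors.card : ℝ) ≤ Cτ * X8 := by
    intro h hh
    rw [mem_Ioc] at hh
    refine (hτ h (by omega)).trans ?_
    have : (h : ℝ) ≤ x := by exact_mod_cast hh.2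
    gcongr
    exact Real.rpow_le_rpow (Nat.cast_nonneg _) this (by positivity)
  refine ⟨FF R Q, B, fun k => ∑ h ∈ (Ioc 0 x).filter (fun h => k ∣ h), W h, hB0, le_rfl,
    fun α => hsup x le_rfl α, ?_, fun k => sum_nonneg fun h _ => hW0 h, ?_, ?_⟩
  · refine le_trans ?_ hmain
    apply mul_le_mul_of_nonneg_left _ hxpos.le
    have hlogx : 4 * 8 ≤ δ * Real.log x := by
      have h1 : Real.log 128 ≤ Real.log X8 := Real.log_le_log (by norm_num) g128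
      rw [hX8, Real.log_rpow hxpos] at h1
      have h2 : Real.log 128 = 7 * Real.log 2 := by
        have : (128 : ℝ) = 2 ^ 7 := by norm_num
        rw [this, Real.log_pow]
        push_cast
        ring
      have := Real.log_two_gt_d9
      linarith
    have hl2 := Real.log_two_lt_d9
    nlinarith
  · refine (markov_sum K x W hW0 (Cτ * X8) (by positivity) hτx).trans ?_
    have hlog2x : 2 + Real.log ((2 * x : ℕ) : ℝ) ≤ 3 * ℓ := by
      push_cast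
      rw [Real.log_mul (by norm_num) hxpos.ne']
      have := Real.log_two_lt_d9
      linarith
    have hlog2x0 : 0 ≤ 2 + Real.log ((2 * x : ℕ) : ℝ) := by
      have := Real.log_natCast_nonneg (2 * x)
      linarith
    have hs : Real.sqrt (∑ h ∈ Ioc 0 x, W h ^ 2) ≤ 54 * ℓ ^ 2 * B * Real.sqrt x := by
      apply Real.sqrt_le_iff.2
      refine ⟨by positivity, hWs.trans ?_⟩
      rw [mul_pow _ (Real.sqrt x), Real.sq_sqrt hxpos.le]
      calc (3 * (2 + Real.log ((2 * x : ℕ) : ℝ)) * B) ^ 2 * H ≤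
            (3 * (3 * ℓ) * B) ^ 2 * (28 * x * (ℓ * ℓ)) := by
            rw [hH]
            gcongr
            nlinarith
        _ ≤ (3 * (3 * ℓ) * B) ^ 2 * (36 * x * (ℓ * ℓ)) := by
            gcongr
            norm_num
        _ = (54 * ℓ ^ 2 * B) ^ 2 * x := by ring
    calc Cτ * X8 * (Real.sqrt x * Real.sqrt (∑ h ∈ Ioc 0 x, W h ^ 2)) ≤
          Cτ * X8 * (Real.sqrt x * (54 * ℓ ^ 2 * B * Real.sqrt x)) := by gcongr
      _ = Cτ * X8 * (54 * ℓ ^ 2 * B) * (Real.sqrt x * Real.sqrt x) := by ring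
      _ = (2592 * Cτ * ℓ ^ 6) * (X8 * (x : ℝ) ^ (-δ) * x * K) := by
          rw [Real.mul_self_sqrt hxpos.le, hB]; ring
      _ ≤ X8 * (X8 * (x : ℝ) ^ (-δ) * x * K) := by
          have := pos (-δ)
          gcongr
      _ = K * (x : ℝ) ^ (1 - 3 * δ / 4) := by
          have e : (x : ℝ) ^ (1 - 3 * δ / 4) = (x : ℝ) ^ (δ / 8) * ((x : ℝ) ^ (δ / 8) *
              (x : ℝ) ^ (-δ) * (x : ℝ) ^ (1 : ℝ)) := by
            rw [← rp, ← rp, ← rp]; congr 1; ring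
          rw [e, Real.rpow_one]
          ring
  · intro k hk0
    exact ⟨shift_le x k x hk0 le_rfl _ _ W hW0 fun h hh => (hW x le_rfl h hh).1,
      shift_le x k x hk0 le_rfl _ _ W hW0 fun h hh => (hW x le_rfl h hh).2.1,
      shift_le x k x hk0 le_rfl _ _ W hW0 fun h hh => (hW x le_rfl h hh).2.2⟩

end

end Pool.Agent.Helper88.LC
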