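import Pool.Agent.Helper88.LC.Four

set_option autoImplicit false

open Finset

namespace Pool.Agent.Helper88.LC

noncomputable section

open Pool.Agent.E8helper88 (cl co class_sum cl_bound noncop_mass mod_coprime)

theorem cl_sub (k N : ℕ) (f g : ℕ → ℝ) (A : ℕ) :
    cl k N (fun n => f n - g n) A = cl k N f A - cl k N g A := by
  unfold cl
  rw [sum_sub_distrib]

theorem tw_sub (N k : ℕ) (f g : ℕ → ℝ) (χ : DirichletCharacter ℂ k) :
    tw N k (fun n => f n - g n) χ = tw N k f χ - tw N k g χ := by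
  unfold tw
  rw [← sum_sub_distrib]
  refine sum_congr rfl fun n _ => ?_
  push_cast
  ring

theorem ft_sub (N : ℕ) (f g : ℕ → ℝ) (α : ℝ) :
    ft N (fun n => f n - g n) α = ft N f α - ft N g α := by
  unfold ft
  rw [← sum_sub_distrib]
  refine sum_congr rfl fun n _ => ?_
  push_cast
  ring

theorem sq_diff_le (a b : ℂ) : ‖a‖ ^ 2 - ‖a - b‖ ^ 2 ≤ 2 * (‖a‖ * ‖b‖) := by
  have h1 : |‖a‖ - ‖b‖| ≤ ‖a - b‖ := abs_norm_sub_norm_le a b
  have h2 : (‖a‖ - ‖b‖) ^ 2 ≤ ‖a - b‖ ^ 2 := by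
    rw [← sq_abs (‖a‖ - ‖b‖)]
    exact pow_le_pow_left₀ (abs_nonneg _) h1 2
  nlinarith [sq_nonneg ‖b‖]

theorem sq_diff_ge (a b : ℂ) : ‖a - b‖ ^ 2 - ‖a‖ ^ 2 ≤ 2 * (‖a‖ * ‖b‖) + ‖b‖ ^ 2 := by
  have h1 : ‖a - b‖ ≤ ‖a‖ + ‖b‖ := norm_sub_le a b
  have h2 : ‖a - b‖ ^ 2 ≤ (‖a‖ + ‖b‖) ^ 2 := pow_le_pow_left₀ (norm_nonneg _) h1 2
  nlinarith

/-- the reduced classes -/
theorem red_lower (k N : ℕ) (hk : 0 < k) (hN : 1 ≤ N) (f : ℕ → ℝ) (B : ℝ)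
    (hB : ∀ α : ℝ, ‖ft N f α‖ ≤ B) (E : ℝ)
    (hE1 : |∑ j ∈ Icc 1 N, co N ArithmeticFunction.vonMangoldt f (j * k)| ≤ E)
    (hE2 : |∑ j ∈ Icc 1 N, co N f ArithmeticFunction.vonMangoldt (j * k)| ≤ E)
    (hE3 : |∑ j ∈ Icc 1 N, co N f f (j * k)| ≤ E) :
    ∑ n ∈ Ioc 0 N, (2 * ArithmeticFunction.vonMangoldt n * f n - f n ^ 2) - 6 * E -
      2 * (k.divisors.card * Real.log N * B) ≤
    ∑ A ∈ (range k).filter (fun A => Nat.Coprime A k),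
      (2 * (cl k N ArithmeticFunction.vonMangoldt A * cl k N f A) - cl k N f A ^ 2) := by
  set Λ : ℕ → ℝ := ⇑ArithmeticFunction.vonMangoldt with hΛ
  set S := (range k).filter (fun A => Nat.Coprime A k) with hS
  have hB0 : 0 ≤ B := (norm_nonneg _).trans (hB 0)
  have e0 : ∑ A ∈ S, (2 * (cl k N Λ A * cl k N f A) - cl k N f A ^ 2) =
      2 * ∑ A ∈ S, cl k N Λ A * cl k N f A - ∑ A ∈ S, cl k N f A ^ 2 := by
    rw [mul_sum, ← sum_sub_distrib]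
  rw [e0]
  have hall1 := class_sum k N hk Λ f
  have hall2 := class_sum k N hk f f
  have hsplit1 : ∑ A ∈ range k, cl k N Λ A * cl k N f A =
      ∑ A ∈ S, cl k N Λ A * cl k N f A +
      ∑ A ∈ (range k).filter (fun A => ¬ Nat.Coprime A k), cl k N Λ A * cl k N f A :=
    (sum_filter_add_sum_filter_not _ _ _).symm
  have hsplit2 : ∑ A ∈ S, cl k N f A ^ 2 ≤ ∑ A ∈ range k, cl k N f A * cl k N f A := by
    calc _ ≤ ∑ A ∈ range k, cl k N f A ^ 2 :=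
          sum_le_sum_of_subset_of_nonneg (filter_subset _ _) fun _ _ _ => sq_nonneg _
      _ = _ := sum_congr rfl fun _ _ => by ring
  have hclnn : ∀ A, 0 ≤ cl k N Λ A := fun A => by
    unfold cl
    exact sum_nonneg fun _ _ => ArithmeticFunction.vonMangoldt_nonneg
  have hnon : |∑ A ∈ (range k).filter (fun A => ¬ Nat.Coprime A k), cl k N Λ A * cl k N f A| ≤
      k.divisors.card * Real.log N * B := by
    refine (abs_sum_le_sum_abs _ _).trans ?_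
    have h3 : ∀ A ∈ (range k).filter (fun A => ¬ Nat.Coprime A k),
        |cl k N Λ A * cl k N f A| ≤ cl k N Λ A * B := by
      intro A hA
      rw [mem_filter, mem_range] at hA
      rw [abs_mul, abs_of_nonneg (hclnn A)]
      exact mul_le_mul_of_nonneg_left (cl_bound k N hk f B hB A hA.1) (hclnn A)
    refine (sum_le_sum h3).trans ?_
    rw [← sum_mul]
    refine mul_le_mul_of_nonneg_right ?_ hB0
    refine le_trans (le_of_eq ?_) (noncop_mass k N hk hN)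
    unfold cl
    have h4 : ∀ A ∈ (range k).filter (fun A => ¬ Nat.Coprime A k),
        ∑ n ∈ (Ioc 0 N).filter (fun n => n % k = A), Λ n =
        ∑ n ∈ Ioc 0 N, if n % k = A then Λ n else 0 := fun A _ => by rw [sum_filter]
    rw [sum_congr rfl h4, sum_comm, sum_filter]
    refine sum_congr rfl fun n _ => ?_
    rw [sum_ite_eq]
    simp only [mem_filter, mem_range, mod_coprime, Nat.mod_lt n hk, true_and]
    rfl
  have hdiag : ∑ n ∈ Ioc 0 N, (2 * Λ n * f n - f n ^ 2) =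
      2 * ∑ n ∈ Ioc 0 N, Λ n * f n - ∑ n ∈ Ioc 0 N, f n * f n := by
    rw [mul_sum, ← sum_sub_distrib]
    exact sum_congr rfl fun _ _ => by ring
  rw [hdiag]
  have a1 := abs_le.1 hE1
  have a2 := abs_le.1 hE2
  have a3 := abs_le.1 hE3
  have a4 := abs_le.1 hnon
  linarith [a1.1, a1.2, a2.1, a2.2, a3.1, a3.2, a4.1, a4.2]

open Classical in
theorem VV_lower (k N D : ℕ) (hk : 0 < k) (hN : 1 ≤ N) (f : ℕ → ℝ) (B : ℝ)
    (hB : ∀ α : ℝ, ‖ft N f α‖ ≤ B) (E : ℝ)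
    (hE1 : |∑ j ∈ Icc 1 N, co N ArithmeticFunction.vonMangoldt f (j * k)| ≤ E)
    (hE2 : |∑ j ∈ Icc 1 N, co N f ArithmeticFunction.vonMangoldt (j * k)| ≤ E)
    (hE3 : |∑ j ∈ Icc 1 N, co N f f (j * k)| ≤ E) :
    ∑ n ∈ Ioc 0 N, (2 * ArithmeticFunction.vonMangoldt n * f n - f n ^ 2) - 6 * E -
      2 * (k.divisors.card * Real.log N * B) -
      2 * ((1 / (Nat.totient k : ℝ)) *
        ∑ χ ∈ (univ : Finset (DirichletCharacter ℂ k)).filter (fun χ => χ.conductor < D),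
          ‖tw N k (⇑ArithmeticFunction.vonMangoldt) χ‖ * ‖tw N k f χ‖) ≤
      VV N k D (⇑ArithmeticFunction.vonMangoldt) := by
  have : NeZero k := ⟨hk.ne'⟩
  have hφ : (0 : ℝ) < Nat.totient k := by exact_mod_cast Nat.totient_pos.2 hk
  have hred := red_lower k N hk hN f B hB E hE1 hE2 hE3
  set Λ : ℕ → ℝ := ⇑ArithmeticFunction.vonMangoldt with hΛ
  set S := (range k).filter (fun A => Nat.Coprime A k) with hS
  set H := (univ : Finset (DirichletCharacter ℂ k)).filter (fun χ => D ≤ χ.conductor) with hH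
  set L := (univ : Finset (DirichletCharacter ℂ k)).filter (fun χ => χ.conductor < D) with hL
  have hsplit : ∀ t : DirichletCharacter ℂ k → ℝ, ∑ χ ∈ H, t χ + ∑ χ ∈ L, t χ = ∑ χ, t χ := by
    intro t
    have := sum_filter_add_sum_filter_not (univ : Finset (DirichletCharacter ℂ k))
      (fun χ => D ≤ χ.conductor) t
    rw [← this, hH, hL]
    congr 2
    ext χ
    simp
  have hP1 := parseval_chi N k Λ
  have hP2 := parseval_chi N k (fun n => Λ n - f n)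
  have hA : ∑ χ : DirichletCharacter ℂ k, (‖tw N k Λ χ‖ ^ 2 -
      ‖tw N k (fun n => Λ n - f n) χ‖ ^ 2) = Nat.totient k *
      ∑ A ∈ S, (2 * (cl k N Λ A * cl k N f A) - cl k N f A ^ 2) := by
    rw [sum_sub_distrib, hP1, hP2, ← mul_sub, ← sum_sub_distrib]
    congr 1
    refine sum_congr rfl fun A _ => ?_
    rw [cl_sub]
    ring
  have hLow : ∑ χ ∈ L, (‖tw N k Λ χ‖ ^ 2 - ‖tw N k (fun n => Λ n - f n) χ‖ ^ 2) ≤
      2 * ∑ χ ∈ L, ‖tw N k Λ χ‖ * ‖tw N k f χ‖ := by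
    rw [mul_sum]
    refine sum_le_sum fun χ _ => ?_
    rw [tw_sub]
    exact sq_diff_le _ _
  have hHigh : ∑ χ ∈ H, (‖tw N k Λ χ‖ ^ 2 - ‖tw N k (fun n => Λ n - f n) χ‖ ^ 2) ≤
      ∑ χ ∈ H, ‖tw N k Λ χ‖ ^ 2 := by
    refine sum_le_sum fun χ _ => ?_
    have : 0 ≤ ‖tw N k (fun n => Λ n - f n) χ‖ ^ 2 := by positivity
    linarith
  have h1 := hsplit (fun χ => ‖tw N k Λ χ‖ ^ 2 - ‖tw N k (fun n => Λ n - f n) χ‖ ^ 2)
  rw [hA] at h1
  have h2 : Nat.totient k * ∑ A ∈ S, (2 * (cl k N Λ A * cl k N f A) - cl k N f A ^ 2) -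
      2 * ∑ χ ∈ L, ‖tw N k Λ χ‖ * ‖tw N k f χ‖ ≤ ∑ χ ∈ H, ‖tw N k Λ χ‖ ^ 2 := by linarith
  unfold VV
  rw [← hH]
  have h3 : (1 / (Nat.totient k : ℝ)) * (Nat.totient k *
      ∑ A ∈ S, (2 * (cl k N Λ A * cl k N f A) - cl k N f A ^ 2) -
      2 * ∑ χ ∈ L, ‖tw N k Λ χ‖ * ‖tw N k f χ‖) ≤
      (1 / (Nat.totient k : ℝ)) * ∑ χ ∈ H, ‖tw N k Λ χ‖ ^ 2 := by gcongr
  have h4 : (1 / (Nat.totient k : ℝ)) * (Nat.totient k *
      ∑ A ∈ S, (2 * (cl k N Λ A * cl k N f A) - cl k N f A ^ 2) -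
      2 * ∑ χ ∈ L, ‖tw N k Λ χ‖ * ‖tw N k f χ‖) =
      ∑ A ∈ S, (2 * (cl k N Λ A * cl k N f A) - cl k N f A ^ 2) -
      2 * ((1 / (Nat.totient k : ℝ)) * ∑ χ ∈ L, ‖tw N k Λ χ‖ * ‖tw N k f χ‖) := by
    field_simp
  rw [h4] at h3
  linarith

theorem UU_upper (k N D : ℕ) (hk : 0 < k) (f : ℕ → ℝ) (E : ℝ)
    (hE1 : |∑ j ∈ Icc 1 N, co N ArithmeticFunction.vonMangoldt f (j * k)| ≤ E)
    (hE2 : |∑ j ∈ Icc 1 N, co N f ArithmeticFunction.vonMangoldt (j * k)| ≤ E)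
    (hE3 : |∑ j ∈ Icc 1 N, co N f f (j * k)| ≤ E) :
    UU N k D (⇑ArithmeticFunction.vonMangoldt) ≤
      UU N k D (fun n => ArithmeticFunction.vonMangoldt n - f n) +
      ∑ n ∈ Ioc 0 N, (2 * ArithmeticFunction.vonMangoldt n * f n - f n ^ 2) + 6 * E +
      (2 * ((1 / (k : ℝ)) * ∑ j ∈ (range k).filter (fun j => k / Nat.gcd j k < D),
        ‖ft N (⇑ArithmeticFunction.vonMangoldt) ((j : ℝ) / k)‖ * ‖ft N f ((j : ℝ) / k)‖) +
      (1 / (k : ℝ)) * ∑ j ∈ (range k).filter (fun j => k / Nat.gcd j k < D),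
        ‖ft N f ((j : ℝ) / k)‖ ^ 2) := by
  have : NeZero k := ⟨hk.ne'⟩
  have hk0 : (0 : ℝ) < k := by exact_mod_cast hk
  set Λ : ℕ → ℝ := ⇑ArithmeticFunction.vonMangoldt with hΛ
  set H := (range k).filter (fun j => D ≤ k / Nat.gcd j k) with hH
  set L := (range k).filter (fun j => k / Nat.gcd j k < D) with hL
  have hsplit : ∀ t : ℕ → ℝ, ∑ j ∈ H, t j + ∑ j ∈ L, t j = ∑ j ∈ range k, t j := by
    intro t
    have := sum_filter_add_sum_filter_not (range k) (fun j => D ≤ k / Nat.gcd j k) t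
    rw [← this, hH, hL]
    congr 2
    ext j
    simp
  have hP1 := parseval_add N k Λ
  have hP2 := parseval_add N k (fun n => Λ n - f n)
  have hA : ∑ j ∈ range k, (‖ft N Λ ((j : ℝ) / k)‖ ^ 2 -
      ‖ft N (fun n => Λ n - f n) ((j : ℝ) / k)‖ ^ 2) = k *
      ∑ A ∈ range k, (2 * (cl k N Λ A * cl k N f A) - cl k N f A * cl k N f A) := by
    rw [sum_sub_distrib, hP1, hP2, ← mul_sub, ← sum_sub_distrib]
    congr 1
    refine sum_congr rfl fun A _ => ?_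
    rw [cl_sub]
    ring
  have hLow : ∑ j ∈ L, (‖ft N (fun n => Λ n - f n) ((j : ℝ) / k)‖ ^ 2 -
      ‖ft N Λ ((j : ℝ) / k)‖ ^ 2) ≤
      2 * ∑ j ∈ L, ‖ft N Λ ((j : ℝ) / k)‖ * ‖ft N f ((j : ℝ) / k)‖ +
        ∑ j ∈ L, ‖ft N f ((j : ℝ) / k)‖ ^ 2 := by
    rw [mul_sum, ← sum_add_distrib]
    refine sum_le_sum fun j _ => ?_
    rw [ft_sub]
    exact sq_diff_ge _ _
  have h1 := hsplit (fun j => ‖ft N Λ ((j : ℝ) / k)‖ ^ 2 -
      ‖ft N (fun n => Λ n - f n) ((j : ℝ) / k)‖ ^ 2)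
  rw [hA] at h1
  have hall1 := class_sum k N hk Λ f
  have hall2 := class_sum k N hk f f
  have hdiag : ∑ n ∈ Ioc 0 N, (2 * Λ n * f n - f n ^ 2) =
      2 * ∑ n ∈ Ioc 0 N, Λ n * f n - ∑ n ∈ Ioc 0 N, f n * f n := by
    rw [mul_sum, ← sum_sub_distrib]
    exact sum_congr rfl fun _ _ => by ring
  have a1 := abs_le.1 hE1
  have a2 := abs_le.1 hE2
  have a3 := abs_le.1 hE3
  have h2 : ∑ A ∈ range k, (2 * (cl k N Λ A * cl k N f A) - cl k N f A * cl k N f A) ≤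
      ∑ n ∈ Ioc 0 N, (2 * Λ n * f n - f n ^ 2) + 6 * E := by
    rw [sum_sub_distrib, ← mul_sum, hall1, hall2, hdiag]
    linarith [a1.1, a1.2, a2.1, a2.2, a3.1, a3.2]
  have h3 : ∑ j ∈ H, ‖ft N Λ ((j : ℝ) / k)‖ ^ 2 ≤
      ∑ j ∈ H, ‖ft N (fun n => Λ n - f n) ((j : ℝ) / k)‖ ^ 2 +
      k * (∑ n ∈ Ioc 0 N, (2 * Λ n * f n - f n ^ 2) + 6 * E) +
      (2 * ∑ j ∈ L, ‖ft N Λ ((j : ℝ) / k)‖ * ‖ft N f ((j : ℝ) / k)‖ +
        ∑ j ∈ L, ‖ft N f ((j : ℝ) / k)‖ ^ 2) := by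
    rw [sum_sub_distrib] at h1 hLow
    rw [sum_sub_distrib] at h1
    have h4 := mul_le_mul_of_nonneg_left h2 hk0.le
    linarith
  unfold UU
  rw [← hH]
  have h5 := mul_le_mul_of_nonneg_left h3 (by positivity : (0 : ℝ) ≤ 1 / k)
  refine h5.trans (le_of_eq ?_)
  field_simp
  ring

end

end Pool.Agent.Helper88.LC
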