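import Pool.Agent.Helper88.LC.Cross2
import Pool.Agent.Helper88.LC.Two
import Pool.Agent.Helper88.LC.Bess
import Pool.Agent.Helper88.LC.Pack

set_option autoImplicit false

open Finset

namespace Pool.Agent.Helper88.LC

noncomputable section

open Pool.Agent.E8helper88

theorem lam_sq_log (N : ℕ) (C : ℝ) (h : ∑ n ∈ Ioc 0 N, ArithmeticFunction.vonMangoldt n ≤ C * N) :
    ∑ n ∈ Ioc 0 N, ArithmeticFunction.vonMangoldt n ^ 2 ≤ C * N * Real.log N := by
  have h1 : ∀ n ∈ Ioc 0 N, ArithmeticFunction.vonMangoldt n ^ 2 ≤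
      Real.log N * ArithmeticFunction.vonMangoldt n := by
    intro n hn
    rw [mem_Ioc] at hn
    have h2 : ArithmeticFunction.vonMangoldt n ≤ Real.log N := by
      refine ArithmeticFunction.vonMangoldt_le_log.trans ?_
      apply Real.log_le_log (by exact_mod_cast hn.1)
      exact_mod_cast hn.2
    rw [sq]
    exact mul_le_mul_of_nonneg_right h2 ArithmeticFunction.vonMangoldt_nonneg
  refine (sum_le_sum h1).trans ?_
  rw [← mul_sum]
  have h4 : 0 ≤ Real.log N := Real.log_natCast_nonneg N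
  calc Real.log N * _ ≤ Real.log N * (C * N) := by gcongr
    _ = _ := by ring

open Classical in
theorem VV_mono (N k D D' : ℕ) (h : D ≤ D') (f : ℕ → ℝ) : VV N k D' f ≤ VV N k D f := by
  unfold VV
  apply mul_le_mul_of_nonneg_left _ (by positivity)
  refine sum_le_sum_of_subset_of_nonneg ?_ fun _ _ _ => by positivity
  intro χ hχ
  rw [mem_filter] at hχ ⊢
  exact ⟨hχ.1, h.trans hχ.2⟩

theorem quant (δ : ℝ) (hδ : 0 < δ) (hδ1 : δ ≤ 1 / 16) : ∃ N0 : ℕ, ∀ N K D : ℕ, N0 ≤ N → 1 ≤ K →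
    K ≤ N → (N : ℝ) ^ (1 + 16 * δ) ≤ 16 * (K : ℝ) ^ 2 → 1 ≤ D → D ^ 2 ≤ N → N ≤ D * K →
    ∃ Z : ℕ → ℝ, (∀ k, 0 ≤ Z k) ∧
      ∑ k ∈ Ioc K (2 * K), Z k ≤ K * (N : ℝ) ^ (1 - δ / 2) ∧
      (∀ k ∈ Ioc K (2 * K), N * (2 * Real.log k - (1 + 6 * δ) * Real.log N) - Z k ≤
        VV N k D (⇑ArithmeticFunction.vonMangoldt)) ∧
      ∑ k ∈ Ioc K (2 * K), VV N k D (⇑ArithmeticFunction.vonMangoldt) ≤
        K * (N * ((1 + δ) * Real.log N +
          108 * (2 * (Real.log N - Real.log K) + 6 * δ * Real.log N))) +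
          K * (N : ℝ) ^ (1 - δ / 2) := by
  classical
  obtain ⟨x1, hx1⟩ := pack δ hδ hδ1
  obtain ⟨x2, hx2⟩ := psi_upper δ hδ
  obtain ⟨Cτ, hCτ, hτ⟩ := H353.divisor_bound_real (δ / 16) (by positivity)
  obtain ⟨x3, hx3⟩ := growth 8 (δ / 8) (11520 * Cτ ^ 2 + 96 * Cτ + 20000 + 2 * Cτ) (by positivity)
    (by positivity)
  refine ⟨max (max x1 x2) (x3 + 2), fun N K D hN hK hKN hcond hD hDN hNDK => ?_⟩
  have hNx1 : x1 ≤ N := ((le_max_left _ _).trans (le_max_left _ _)).trans hN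
  have hNx2 : x2 ≤ N := ((le_max_right _ _).trans (le_max_left _ _)).trans hN
  have hNx3 : x3 + 2 ≤ N := (le_max_right _ _).trans hN
  obtain ⟨F, B, E, hB0, hB, hsup, hmain, hE0, hEs, hE⟩ := hx1 K N hNx1 hK hKN hcond
  have hgr := hx3 N (by omega)
  have hψ := hx2 N hNx2
  have hN1 : 1 ≤ N := by omega
  have hN1r : (1 : ℝ) ≤ N := by exact_mod_cast hN1
  have hNpos : (0 : ℝ) < N := by linarith
  have hK0 : (0 : ℝ) < K := by exact_mod_cast hK
  have hK1 : (1 : ℝ) ≤ K := by exact_mod_cast hK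
  have hKN' : (K : ℝ) ≤ N := by exact_mod_cast hKN
  have hl : 0 ≤ Real.log N := Real.log_nonneg hN1r
  set ℓ := 1 + Real.log N with hℓ
  have hℓ1 : 1 ≤ ℓ := by linarith
  have hpw : ∀ i j : ℕ, i ≤ j → ℓ ^ i ≤ ℓ ^ j := fun i j h => pow_le_pow_right₀ hℓ1 h
  have rp : ∀ s t : ℝ, (N : ℝ) ^ (s + t) = (N : ℝ) ^ s * (N : ℝ) ^ t := fun s t =>
    Real.rpow_add hNpos s t
  have mono : ∀ s t : ℝ, s ≤ t → (N : ℝ) ^ s ≤ (N : ℝ) ^ t := fun s t h =>
    Real.rpow_le_rpow_of_exponent_le hN1r h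
  have pos : ∀ s : ℝ, 0 < (N : ℝ) ^ s := fun s => Real.rpow_pos_of_pos hNpos s
  set X8 := (N : ℝ) ^ (δ / 8) with hX8
  have hX8pos : 0 < X8 := pos _
  have hℓ8 : 1 ≤ ℓ ^ 8 := one_le_pow₀ hℓ1
  have gA : 11520 * Cτ ^ 2 * ℓ ^ 8 ≤ X8 := by
    have : 0 ≤ (96 * Cτ + 20000 + 2 * Cτ) * ℓ ^ 8 := by positivity
    linarith only [this, hgr]
  have gB : 96 * Cτ * ℓ ^ 8 ≤ X8 := by
    have : 0 ≤ (11520 * Cτ ^ 2 + 20000 + 2 * Cτ) * ℓ ^ 8 := by positivity
    linarith only [this, hgr]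
  have gC : 20000 * ℓ ^ 8 ≤ X8 := by
    have : 0 ≤ (11520 * Cτ ^ 2 + 96 * Cτ + 2 * Cτ) * ℓ ^ 8 := by positivity
    linarith only [this, hgr]
  have gD : 2 * Cτ ≤ X8 := by
    have h0 : 0 ≤ (11520 * Cτ ^ 2 + 96 * Cτ + 20000) * ℓ ^ 8 := by positivity
    have h1 : 2 * Cτ ≤ 2 * Cτ * ℓ ^ 8 := by
      have : 0 ≤ 2 * Cτ := by positivity
      exact le_mul_of_one_le_right this hℓ8
    linarith only [h0, h1, hgr]
  have g2 : 20000 ≤ X8 := by linarith only [hℓ8, gC]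
  set Λ : ℕ → ℝ := ⇑ArithmeticFunction.vonMangoldt with hΛ
  -- the divisor bound
  set T := 2 * Cτ * (N : ℝ) ^ (δ / 16) with hT
  have hT0 : 0 ≤ T := by have := pos (δ / 16); positivity
  have hτk : ∀ k ∈ Ioc K (2 * K), (k.divisors.card : ℝ) ≤ T := by
    intro k hk
    rw [mem_Ioc] at hk
    refine (hτ k (by omega)).trans ?_
    have h1 : (k : ℝ) ≤ 2 * N := by
      have : k ≤ 2 * N := by omega
      exact_mod_cast this
    calc Cτ * (k : ℝ) ^ (δ / 16) ≤ Cτ * (2 * (N : ℝ)) ^ (δ / 16) := by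
          gcongr
      _ = Cτ * ((2 : ℝ) ^ (δ / 16) * (N : ℝ) ^ (δ / 16)) := by
          rw [Real.mul_rpow (by norm_num) hNpos.le]
      _ ≤ Cτ * ((2 : ℝ) ^ (1 : ℝ) * (N : ℝ) ^ (δ / 16)) := by
          have := pos (δ / 16)
          have h2 : (2 : ℝ) ^ (δ / 16) ≤ (2 : ℝ) ^ (1 : ℝ) :=
            Real.rpow_le_rpow_of_exponent_le (by norm_num) (by linarith)
          gcongr
      _ = T := by rw [Real.rpow_one, hT]; ring
  have hT2 : T ^ 2 = 4 * Cτ ^ 2 * X8 := by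
    rw [hT, hX8, mul_pow, mul_pow, sq ((N : ℝ) ^ (δ / 16)), ← rp]
    ring_nf
  -- the quantities
  have hD0' : (1 : ℝ) ≤ D := by exact_mod_cast hD
  have hDN' : (D : ℝ) ^ 2 ≤ N := by exact_mod_cast hDN
  have hlogD : Real.log D ≤ Real.log N := by
    apply Real.log_le_log (by linarith)
    nlinarith
  have hlogD0 : 0 ≤ Real.log D := Real.log_natCast_nonneg D
  have hΛ6 : ∑ n ∈ Ioc 0 N, ArithmeticFunction.vonMangoldt n ^ 2 ≤ 6 * N * ℓ := by
    refine (lam_sq_upper N).trans ?_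
    have : Real.log N ≤ ℓ := by linarith
    gcongr
  have hΛ0 : 0 ≤ ∑ n ∈ Ioc 0 N, ArithmeticFunction.vonMangoldt n ^ 2 :=
    sum_nonneg fun _ _ => sq_nonneg _
  -- a common bound for the square roots
  have hsqrt : ∀ D' : ℕ, 1 ≤ D' → D' ≤ D → Real.sqrt ((1 + Real.log D') *
      (6 * (N + (D' : ℝ) ^ 2) * ∑ n ∈ Ioc 0 N, ArithmeticFunction.vonMangoldt n ^ 2)) ≤
      9 * N * ℓ := by
    intro D' hD'1 hD'
    have h1 : (D' : ℝ) ≤ D := by exact_mod_cast hD'
    have h0 : (1 : ℝ) ≤ D' := by exact_mod_cast hD'1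
    have h2 : Real.log D' ≤ Real.log N := (Real.log_le_log (by linarith) h1).trans hlogD
    have h3 : (D' : ℝ) ^ 2 ≤ N := by nlinarith
    have h4 : 0 ≤ Real.log D' := Real.log_natCast_nonneg D'
    rw [Real.sqrt_le_left (by positivity)]
    calc (1 + Real.log D') * (6 * (N + (D' : ℝ) ^ 2) *
          ∑ n ∈ Ioc 0 N, ArithmeticFunction.vonMangoldt n ^ 2) ≤
          ℓ * (6 * (N + N) * (6 * N * ℓ)) := by
          have h5 : 1 + Real.log D' ≤ ℓ := by linarith only [h2, hℓ]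
          have h6 : 6 * ((N : ℝ) + (D' : ℝ) ^ 2) ≤ 6 * (N + N) := by linarith only [h3]
          exact mul_le_mul h5 (mul_le_mul h6 hΛ6 hΛ0 (by positivity)) (by positivity)
            (by positivity)
      _ = 72 * ((N : ℝ) ^ 2 * ℓ ^ 2) := by ring
      _ ≤ 81 * ((N : ℝ) ^ 2 * ℓ ^ 2) := by
          have : 0 ≤ (N : ℝ) ^ 2 * ℓ ^ 2 := by positivity
          linarith only [this]
      _ = (9 * N * ℓ) ^ 2 := by ring
  -- the cross terms
  set X : ℕ → ℝ := fun k => (1 / (Nat.totient k : ℝ)) *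
      ∑ χ ∈ (univ : Finset (DirichletCharacter ℂ k)).filter (fun χ => χ.conductor < D),
        ‖tw N k Λ χ‖ * ‖tw N k F χ‖ with hX
  have hX0 : ∀ k, 0 ≤ X k := fun k => by positivity
  have hXs : ∑ k ∈ Ioc K (2 * K), X k ≤ K * (N : ℝ) ^ (1 - 3 * δ / 4) / 2 := by
    refine (s_CROSS N K D hN1 hK hD F B T hsup hτk).trans ?_
    have h1 := hsqrt D hD le_rfl
    have hTN : D * T ≤ N := by
      have h2 : T ^ 2 ≤ N := by
        rw [hT2]
        calc 4 * Cτ ^ 2 * X8 = (2 * Cτ) * (2 * Cτ) * X8 := by ring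
          _ ≤ X8 * X8 * X8 := by gcongr
          _ = (N : ℝ) ^ (3 * δ / 8) := by rw [hX8, ← rp, ← rp]; congr 1; ring
          _ ≤ (N : ℝ) ^ (1 : ℝ) := mono _ _ (by linarith)
          _ = N := Real.rpow_one _
      have h3 : ((D : ℝ) * T) ^ 2 ≤ (N : ℝ) ^ 2 := by
        rw [mul_pow, sq (N : ℝ)]
        exact mul_le_mul hDN' h2 (sq_nonneg _) hNpos.le
      exact (pow_le_pow_iff_left₀ (by positivity) hNpos.le (by norm_num)).1 h3
    have h4 : (D : ℝ) * T * Real.log N ≤ N * ℓ := by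
      have : Real.log N ≤ ℓ := by linarith
      exact mul_le_mul hTN this hl hNpos.le
    calc 3 * T ^ 2 * B * (Real.sqrt ((1 + Real.log D) * (6 * (N + (D : ℝ) ^ 2) *
          ∑ n ∈ Ioc 0 N, ArithmeticFunction.vonMangoldt n ^ 2)) + D * T * Real.log N) ≤
          3 * T ^ 2 * (48 * ℓ ^ 4 * (K * (N : ℝ) ^ (-δ))) * (9 * N * ℓ + N * ℓ) := by
          have := pos (-δ)
          gcongr
      _ = (5760 * Cτ ^ 2 * ℓ ^ 5) * (X8 * (N : ℝ) ^ (-δ) * N * K) := by
          rw [hT2]; ring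
      _ ≤ (X8 / 2) * (X8 * (N : ℝ) ^ (-δ) * N * K) := by
          have := pos (-δ)
          have h5 : ℓ ^ 5 ≤ ℓ ^ 8 := hpw 5 8 (by norm_num)
          have h6 : 5760 * Cτ ^ 2 * ℓ ^ 5 ≤ X8 / 2 := by
            have h7 : 5760 * Cτ ^ 2 * ℓ ^ 5 ≤ 5760 * Cτ ^ 2 * ℓ ^ 8 := by gcongr
            linarith
          gcongr
      _ = K * (N : ℝ) ^ (1 - 3 * δ / 4) / 2 := by
          have e : (N : ℝ) ^ (1 - 3 * δ / 4) = (N : ℝ) ^ (δ / 8) * ((N : ℝ) ^ (δ / 8) *
              (N : ℝ) ^ (-δ) * (N : ℝ) ^ (1 : ℝ)) := by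
            rw [← rp, ← rp, ← rp]; congr 1; ring
          rw [e, Real.rpow_one]
          ring
  -- comparison of the powers
  have hpow : 20 * (N : ℝ) ^ (1 - 3 * δ / 4) ≤ (N : ℝ) ^ (1 - δ / 2) := by
    have e : (N : ℝ) ^ (1 - δ / 2) = (N : ℝ) ^ (1 - 3 * δ / 4) * (X8 * X8) := by
      rw [hX8, ← rp, ← rp]; congr 1; ring
    rw [e, mul_comm]
    apply mul_le_mul_of_nonneg_left _ (pos _).le
    calc (20 : ℝ) ≤ 20000 * 1 := by norm_num
      _ ≤ X8 * X8 := mul_le_mul g2 (by linarith only [g2]) (by norm_num) hX8pos.le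
  refine ⟨fun k => 6 * E k + 2 * X k, fun k => by have := hE0 k; have := hX0 k; linarith, ?_, ?_, ?_⟩
  · rw [sum_add_distrib, ← mul_sum, ← mul_sum]
    have h1 : (K : ℝ) * (20 * (N : ℝ) ^ (1 - 3 * δ / 4)) ≤ K * (N : ℝ) ^ (1 - δ / 2) := by gcongr
    have h2 : 0 ≤ (K : ℝ) * (N : ℝ) ^ (1 - 3 * δ / 4) := by
      have := pos (1 - 3 * δ / 4)
      positivity
    linarith
  · intro k hk
    have hk' := mem_Ioc.1 hk
    have hk0 : 0 < k := by omega
    have hkr : (0 : ℝ) < k := by exact_mod_cast hk0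
    obtain ⟨q1, q2, q3⟩ := hE k hk0
    have h1 := VV_lower k N D hk0 hN1 F B hsup (E k) q1 q2 q3
    have h2 : (k.divisors.card : ℝ) * Real.log N * B ≤ N / 4 := by
      calc (k.divisors.card : ℝ) * Real.log N * B ≤
            T * ℓ * (48 * ℓ ^ 4 * (K * (N : ℝ) ^ (-δ))) := by
            have h3 := hτk k hk
            have h4 : Real.log N ≤ ℓ := by linarith
            gcongr
        _ = (96 * Cτ * ℓ ^ 5) * ((N : ℝ) ^ (δ / 16) * (N : ℝ) ^ (-δ) * K) := by rw [hT]; ring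
        _ ≤ X8 * ((N : ℝ) ^ (δ / 16) * (N : ℝ) ^ (-δ) * N) := by
            have := pos (-δ)
            have := pos (δ / 16)
            have h5 : ℓ ^ 5 ≤ ℓ ^ 8 := hpw 5 8 (by norm_num)
            have h6 : 96 * Cτ * ℓ ^ 5 ≤ X8 := le_trans (by gcongr) gB
            gcongr
        _ = (N : ℝ) ^ (1 - 13 * δ / 16) := by
            have e : (N : ℝ) ^ (1 - 13 * δ / 16) = (N : ℝ) ^ (δ / 8) * ((N : ℝ) ^ (δ / 16) *
              (N : ℝ) ^ (-δ) * (N : ℝ) ^ (1 : ℝ)) := by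
              rw [← rp, ← rp, ← rp]; congr 1; ring
            rw [e, Real.rpow_one]
        _ ≤ (N : ℝ) ^ (1 - δ / 8) := mono _ _ (by linarith)
        _ ≤ N / 4 := by
            have e : (N : ℝ) = (N : ℝ) ^ (1 - δ / 8) * X8 := by
              rw [hX8, ← rp]
              conv_lhs => rw [← Real.rpow_one (N : ℝ)]
              congr 1
              ring
            have h20 := pos (1 - δ / 8)
            have h21 : (N : ℝ) ^ (1 - δ / 8) * 4 ≤ (N : ℝ) ^ (1 - δ / 8) * X8 :=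
              mul_le_mul_of_nonneg_left (by linarith only [g2]) h20.le
            rw [← e] at h21
            linarith only [h21]
    have hlogN : 30 ≤ δ * Real.log N := by
      have h1 : Real.log 128 ≤ Real.log X8 := Real.log_le_log (by norm_num) (by linarith)
      rw [hX8, Real.log_rpow hNpos] at h1
      have h2 : Real.log 128 = 7 * Real.log 2 := by
        have : (128 : ℝ) = 2 ^ 7 := by norm_num
        rw [this, Real.log_pow]
        push_cast
        ring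
      have := Real.log_two_gt_d9
      linarith
    have hlk : Real.log k ≤ Real.log K + Real.log 2 := by
      rw [← Real.log_mul hK0.ne' (by norm_num)]
      apply Real.log_le_log hkr
      have : k ≤ 2 * K := hk'.2
      have : (k : ℝ) ≤ 2 * K := by exact_mod_cast this
      linarith
    have hl2 := Real.log_two_lt_d9
    have h7 : N * (2 * Real.log k - (1 + 6 * δ) * Real.log N) ≤
        N * (2 * Real.log K - (1 + 5 * δ) * Real.log N) - N := by
      have h8 : 2 * Real.log k - (1 + 6 * δ) * Real.log N ≤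
          2 * Real.log K - (1 + 5 * δ) * Real.log N - 1 := by nlinarith
      have := mul_le_mul_of_nonneg_left h8 hNpos.le
      linarith
    have hXk : X k = (1 / (Nat.totient k : ℝ)) *
      ∑ χ ∈ (univ : Finset (DirichletCharacter ℂ k)).filter (fun χ => χ.conductor < D),
        ‖tw N k Λ χ‖ * ‖tw N k F χ‖ := rfl
    rw [← hXk] at h1
    change N * (2 * Real.log k - (1 + 6 * δ) * Real.log N) - (6 * E k + 2 * X k) ≤ _
    linarith
  · -- the upper bound
    set D' := min D (N / K + 1) with hD'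
    have hD'D : D' ≤ D := min_le_left _ _
    have hD'1 : 1 ≤ D' := le_min hD (Nat.le_add_left 1 _)
    have hD'K : N ≤ D' * K := by
      rcases le_total D (N / K + 1) with h | h
      · rw [hD', min_eq_left h]; exact hNDK
      · rw [hD', min_eq_right h]
        have := Nat.lt_div_mul_add hK (a := N)
        nlinarith
    have hD'K' : (N : ℝ) ≤ D' * K := by exact_mod_cast hD'K
    have hD'0 : (1 : ℝ) ≤ D' := by exact_mod_cast hD'1
    have hD'le : (D' : ℝ) * K ≤ 2 * N := by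
      have h1 : D' * K ≤ (N / K + 1) * K := Nat.mul_le_mul_right K (min_le_right _ _)
      have h2 : (N / K + 1) * K ≤ 2 * N := by
        have := Nat.div_mul_le_self N K
        nlinarith
      have := h1.trans h2
      exact_mod_cast this
    set M := ∑ n ∈ Ioc 0 N, (2 * ArithmeticFunction.vonMangoldt n * F n - F n ^ 2) with hM
    set σ : ℕ → ℝ := fun n => ArithmeticFunction.vonMangoldt n - F n with hσ
    have hσs : ∑ n ∈ Ioc 0 N, σ n ^ 2 =
        ∑ n ∈ Ioc 0 N, ArithmeticFunction.vonMangoldt n ^ 2 - M := by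
      rw [hM, ← sum_sub_distrib]
      refine sum_congr rfl fun n _ => ?_
      rw [hσ]
      ring
    have hσ0 : 0 ≤ ∑ n ∈ Ioc 0 N, σ n ^ 2 := sum_nonneg fun _ _ => sq_nonneg _
    have hL2 := lam_sq_log N (1 + δ) hψ
    have h1 : ∀ k ∈ Ioc K (2 * K), VV N k D Λ ≤ UU N k D' σ + M + 6 * E k +
        (2 * ((1 / (k : ℝ)) * ∑ j ∈ (range k).filter (fun j => k / Nat.gcd j k < D'),
          ‖ft N Λ ((j : ℝ) / k)‖ * ‖ft N F ((j : ℝ) / k)‖) +
        (1 / (k : ℝ)) * ∑ j ∈ (range k).filter (fun j => k / Nat.gcd j k < D'),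
          ‖ft N F ((j : ℝ) / k)‖ ^ 2) := by
      intro k hk
      have hk' := mem_Ioc.1 hk
      have hk0 : 0 < k := by omega
      obtain ⟨q1, q2, q3⟩ := hE k hk0
      exact ((VV_mono N k D' D hD'D Λ).trans (VV_le_UU N k D' hk0 Λ)).trans
        (UU_upper k N D' hk0 F (E k) q1 q2 q3)
    refine (sum_le_sum h1).trans ?_
    rw [sum_add_distrib, sum_add_distrib, sum_add_distrib, sum_add_distrib, ← mul_sum, ← mul_sum,
      sum_const, Nat.card_Ioc, nsmul_eq_mul]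
    have h2 := UU_mean N K D' hK hD'1 σ
    have h3 := low_mean N K D' hK Λ F B hsup
    have h4 := low_mean' N K D' hK F B hsup
    have h5 := hsqrt D' hD'1 hD'D
    have eK : ((2 * K - K : ℕ) : ℝ) = K := by
      have : 2 * K - K = K := by omega
      rw [this]
    rw [eK]
    -- the large sieve term
    have h6 : 36 * ((N : ℝ) / D' + 2 * K) * ∑ n ∈ Ioc 0 N, σ n ^ 2 ≤
        108 * K * ∑ n ∈ Ioc 0 N, σ n ^ 2 := by
      apply mul_le_mul_of_nonneg_right _ hσ0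
      have : (N : ℝ) / D' ≤ K := by
        rw [div_le_iff₀ (by linarith)]
        linarith
      linarith
    -- the low terms
    have h7 : 3 * B * Real.sqrt ((1 + Real.log D') *
        (6 * (N + (D' : ℝ) ^ 2) * ∑ n ∈ Ioc 0 N, Λ n ^ 2)) ≤
        K * (N : ℝ) ^ (1 - 3 * δ / 4) := by
      calc _ ≤ 3 * (48 * ℓ ^ 4 * (K * (N : ℝ) ^ (-δ))) * (9 * N * ℓ) := by
            have := pos (-δ)
            gcongr
        _ = (1296 * ℓ ^ 5) * ((N : ℝ) ^ (-δ) * N * K) := by ring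
        _ ≤ (X8 * X8) * ((N : ℝ) ^ (-δ) * N * K) := by
            have := pos (-δ)
            have h5 : ℓ ^ 5 ≤ ℓ ^ 8 := hpw 5 8 (by norm_num)
            have h6 : 1296 * ℓ ^ 5 ≤ X8 * X8 := by
              calc 1296 * ℓ ^ 5 ≤ 20000 * ℓ ^ 8 := by
                    have : 0 ≤ ℓ ^ 8 := by positivity
                    linarith only [h5, this]
                _ ≤ X8 := gC
                _ = X8 * 1 := (mul_one _).symm
                _ ≤ X8 * X8 := mul_le_mul_of_nonneg_left (by linarith only [g2]) hX8pos.le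
            gcongr
        _ = _ := by
            have e : (N : ℝ) ^ (1 - 3 * δ / 4) = (N : ℝ) ^ (δ / 8) * (N : ℝ) ^ (δ / 8) *
                ((N : ℝ) ^ (-δ) * (N : ℝ) ^ (1 : ℝ)) := by
              rw [← rp, ← rp, ← rp]; congr 1; ring
            rw [e, Real.rpow_one]
            ring
    have h8 : 3 * B ^ 2 * (D' : ℝ) ≤ K * (N : ℝ) ^ (1 - 3 * δ / 4) := by
      calc 3 * B ^ 2 * (D' : ℝ) ≤ 3 * (48 * ℓ ^ 4 * (K * (N : ℝ) ^ (-δ))) ^ 2 * D' := by
            gcongr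
        _ = (6912 * ℓ ^ 8) * ((N : ℝ) ^ (-δ) * (N : ℝ) ^ (-δ)) * (D' * K) * K := by ring
        _ ≤ (6912 * ℓ ^ 8) * ((N : ℝ) ^ (-δ) * (N : ℝ) ^ (-δ)) * (2 * N) * K := by
            have := pos (-δ)
            gcongr
        _ = (13824 * ℓ ^ 8) * ((N : ℝ) ^ (-δ) * (N : ℝ) ^ (-δ) * N * K) := by ring
        _ ≤ X8 * ((N : ℝ) ^ (-δ) * (N : ℝ) ^ (-δ) * N * K) := by
            have := pos (-δ)
            have h6 : 13824 * ℓ ^ 8 ≤ X8 := by linarith only [gC, hℓ8]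
            gcongr
        _ = K * (N : ℝ) ^ (1 - 15 * δ / 8) := by
            have e : (N : ℝ) ^ (1 - 15 * δ / 8) = (N : ℝ) ^ (δ / 8) *
                ((N : ℝ) ^ (-δ) * (N : ℝ) ^ (-δ) * (N : ℝ) ^ (1 : ℝ)) := by
              rw [← rp, ← rp, ← rp]; congr 1; ring
            rw [e, Real.rpow_one]
            ring
        _ ≤ _ := by
            have := mono (1 - 15 * δ / 8) (1 - 3 * δ / 4) (by linarith)
            gcongr
    have h9 : (K : ℝ) * (20 * (N : ℝ) ^ (1 - 3 * δ / 4)) ≤ K * (N : ℝ) ^ (1 - δ / 2) := by gcongr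
    have h10 : 0 ≤ (K : ℝ) * (N : ℝ) ^ (1 - 3 * δ / 4) := by
      have := pos (1 - 3 * δ / 4)
      positivity
    -- main terms
    have h11 : (K : ℝ) * M + 108 * K * ∑ n ∈ Ioc 0 N, σ n ^ 2 ≤
        K * (N * ((1 + δ) * Real.log N +
          108 * (2 * (Real.log N - Real.log K) + 6 * δ * Real.log N))) := by
      have a1 : M ≤ (1 + δ) * N * Real.log N := by linarith
      have a2 : ∑ n ∈ Ioc 0 N, σ n ^ 2 ≤
          N * (2 * (Real.log N - Real.log K) + 6 * δ * Real.log N) := by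
        rw [hσs]
        linarith
      calc (K : ℝ) * M + 108 * K * ∑ n ∈ Ioc 0 N, σ n ^ 2 ≤ K * ((1 + δ) * N * Real.log N) +
            108 * K * (N * (2 * (Real.log N - Real.log K) + 6 * δ * Real.log N)) := by gcongr
        _ = _ := by ring
    have e1 : ∑ k ∈ Ioc K (2 * K), UU N k D' σ ≤ 108 * K * ∑ n ∈ Ioc 0 N, σ n ^ 2 := h2.trans h6
    linarith

end

end Pool.Agent.Helper88.LC
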